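import Pool.Agent.Q35.TT.Mzm

/-!
# Local closures of `w² = f` off and on the branch divisor: classification and numbers (helper58)

The structure of the proof of `MZN` (helper224) with the ideals of the planes instead of the sets of
polynomials vanishing at rational points, and with bounds for the numbers.
-/

set_option autoImplicit false

open MvPolynomial

namespace Pool.Agent.H58U

open Pool.Agent.Q35.TT Pool.Agent.Q224.TT

section defs

variable {K : Type} [Field K] {n : ℕ}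

/-- The ideal of the part of `w² = f` over the plane `P`. -/
def IQ (f : MvPolynomial (Fin n) K) (P : Set (Fin n → K)) : Set (MvPolynomial (Option (Fin n)) K) :=
  {g | ∃ (A B : MvPolynomial (Fin n) K) (Q : MvPolynomial (Option (Fin n)) K),
    g = rename some A + X none * rename some B + (X none ^ 2 - rename some f) * Q ∧
    ∀ y ∈ P, eval y A = 0 ∧ eval y B = 0}

theorem eval_IQ {f : MvPolynomial (Fin n) K} {P : Set (Fin n → K)} {g : MvPolynomial (Option (Fin n)) K}
    (hg : g ∈ IQ f P) {W : K} {z : Fin n → K} (hW : W ^ 2 = eval z f) (hz : z ∈ P) :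
    eval (fun o => o.elim W z) g = 0 := by
  obtain ⟨A, B, Q, h1, h2⟩ := hg
  obtain ⟨hA, hB⟩ := h2 z hz
  rw [h1, map_add, map_add, map_mul, map_mul, map_sub, map_pow, eval_X, eval_opt, eval_opt, eval_opt,
    ← hW, hA, hB]
  simp only [Option.elim_none]
  ring

theorem IQ_univ [Infinite K] (f : MvPolynomial (Fin n) K) :
    IQ f Set.univ = {g | (X none ^ 2 - rename some f) ∣ g} := by
  ext g
  constructor
  · rintro ⟨A, B, Q, h1, h2⟩
    have hA : A = 0 := MvPolynomial.funext fun y => by rw [(h2 y (Set.mem_univ y)).1, map_zero]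
    have hB : B = 0 := MvPolynomial.funext fun y => by rw [(h2 y (Set.mem_univ y)).2, map_zero]
    refine ⟨Q, ?_⟩
    rw [h1, hA, hB, map_zero]
    ring
  · rintro ⟨Q, h⟩
    refine ⟨0, 0, Q, ?_, fun y _ => ⟨map_zero _, map_zero _⟩⟩
    rw [h, map_zero]
    ring

end defs

/-- the key lemma -/
theorem key' (h2 : S_CLA) (h3 : S_NSQ) {K : Type} [Field K] [NumberField K] {n : ℕ} (f : MvPolynomial (Fin n) K)
    (hf : ∀ j, f.degreeOf j ≤ 4) (hsm : SmoothN f) (hfin : FinSpec f) {L : Type} [NontriviallyNormedField L]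
    [CompleteSpace L] (σ : K →+* L) (hσ : DenseRange σ) (W : K) (z : Fin n → K) (hW : W ≠ 0) (hWz : W ^ 2 = eval z f)
    (hnt : ∃ i, ¬ TorN f z i) :
    ∃ J : Finset (Fin n), J.Nonempty ∧ SpecN f z J ∧
      locN σ f (σ W) (fun i => σ (z i)) ⊆ IQ f {y | OnPl J z y} := by
  have : Infinite K := CharZero.infinite K
  have hz : eval z f ≠ 0 := by
    rw [← hWz]
    exact pow_ne_zero 2 hW
  obtain ⟨J, hJ, hfull, hspec⟩ := h2 K L σ hσ n f hf hsm hfin z W hW hWz hnt
  refine ⟨J, hJ, hspec, ?_⟩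
  rintro g ⟨U, hU, hg⟩
  obtain ⟨A, B, Q, hAB⟩ := decomp_eq f g
  have hval : ∀ (w1 : K) (z1 : Fin n → K), w1 ^ 2 = eval z1 f →
      eval (fun o => o.elim w1 z1) g = eval z1 A + w1 * eval z1 B := by
    intro w1 z1 k1
    rw [hAB, map_add, map_add, map_mul, map_mul, map_sub, map_pow, eval_X, eval_opt, eval_opt, eval_opt,
      ← k1]
    simp only [Option.elim_none]
    ring
  obtain ⟨ε, hε, hball⟩ := Metric.mem_nhds_iff.1 hU
  have hAB0 : ∀ y, OnPl J z y → eval y A ^ 2 = eval y f * eval y B ^ 2 := by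
    intro y hy
    by_contra hne
    obtain ⟨z1, w1, k1, k2, k3, k4, k5⟩ := hfull ε hε (A ^ 2 - f * B ^ 2) ⟨y, hy, by
      rw [map_sub, map_mul, map_pow, map_pow, sub_ne_zero]
      exact hne⟩
    apply k5
    have hin : (σ w1, fun i => σ (z1 i)) ∈ U := by
      apply hball
      rw [Metric.mem_ball, Prod.dist_eq, max_lt_iff]
      constructor
      · rw [dist_eq_norm]
        exact k4
      · rw [dist_pi_lt_iff hε]
        intro i
        rw [dist_eq_norm]
        exact k3 i
    have h5 := hg w1 z1 k1 hin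
    rw [hval w1 z1 k1] at h5
    rw [map_sub, map_mul, map_pow, map_pow, ← k1]
    have h6 : eval z1 A = - (w1 * eval z1 B) := eq_neg_of_add_eq_zero_left h5
    rw [h6]
    ring
  have hall := h3 K n f hf hsm J z hJ hz hspec A B hAB0
  exact ⟨A, B, Q, hAB, fun y hy => hall y hy⟩

section

variable {K : Type} [Field K] {n : ℕ} {L : Type} [NontriviallyNormedField L]

/-- the relation between a point and a special plane through it -/
def RR' (σ : K →+* L) (f : MvPolynomial (Fin n) K) (W : K) (z : Fin n → K) (P : Set (Fin n → K)) : Prop :=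
  z ∈ P ∧ locN σ f (σ W) (fun i => σ (z i)) ⊆ IQ f P

/-- the special planes near a point -/
def E1' (σ : K →+* L) (f : MvPolynomial (Fin n) K) (w : L) (x : Fin n → L) : Set (Set (Fin n → K)) :=
  {P | P ∈ EE f ∧ ∀ U ∈ nhds (w, x), ∃ (W : K) (z : Fin n → K), (σ W, fun i => σ (z i)) ∈ U ∧ RR' σ f W z P}

/-- the set of polynomials determined by the data -/
def PHI' (f : MvPolynomial (Fin n) K) (E' : Set (Set (Fin n → K))) (T' : Set (K × (Fin n → K)))
    (Q : Set (MvPolynomial (Option (Fin n)) K)) : Set (MvPolynomial (Option (Fin n)) K) :=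
  {g | (∀ P ∈ E', g ∈ IQ f P) ∧ (∀ t ∈ T', eval (fun o => o.elim t.1 t.2) g = 0) ∧ g ∈ Q}

theorem locN_eq' (σ : K →+* L) (f : MvPolynomial (Fin n) K) (hE : (EE f).Finite) (hT : (TT0 f).Finite)
    (hkey : ∀ (W : K) (z : Fin n → K), W ≠ 0 → W ^ 2 = eval z f → (∃ i, ¬ TorN f z i) → ∃ P ∈ EE f, RR' σ f W z P)
    (w : L) (x : Fin n → L) : locN σ f w x = PHI' f (E1' σ f w x) (T1 σ f w x) (QQ σ f w x) := by
  classical
  apply Set.Subset.antisymm
  · rintro g ⟨U, hU, hg⟩
    refine ⟨?_, ?_, ?_⟩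
    · rintro P ⟨-, hP⟩
      obtain ⟨V, hVU, hVo, hV⟩ := mem_nhds_iff.1 hU
      obtain ⟨W, z, hWz, hR⟩ := hP V (hVo.mem_nhds hV)
      exact hR.2 ⟨U, Filter.mem_of_superset (hVo.mem_nhds hWz) hVU, hg⟩
    · rintro t ⟨ht, ht2⟩
      refine hg t.1 t.2 ht.1 ?_
      rw [ht2]
      exact mem_of_mem_nhds hU
    · unfold QQ
      by_cases hw : w = 0
      · rw [if_pos hw]
        subst hw
        refine ⟨{x' | ((0 : L), x') ∈ U}, ?_, ?_⟩
        · have hc : Continuous (fun x' : Fin n → L => ((0 : L), x')) := by fun_prop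
          exact hc.continuousAt.preimage_mem_nhds hU
        · intro z hz hzU
          rw [eval_br]
          refine hg 0 z ?_ ?_
          · rw [hz]
            ring
          · rw [map_zero]
            exact hzU
      · rw [if_neg hw]
        exact Set.mem_univ _
  · rintro g ⟨h1, h2, h3⟩
    -- the neighbourhoods
    have hA : ∀ P, ∃ U ∈ nhds (w, x), P ∈ EE f → P ∉ E1' σ f w x → ∀ (W : K) (z : Fin n → K),
        (σ W, fun i => σ (z i)) ∈ U → ¬ RR' σ f W z P := by
      intro P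
      by_cases hP : P ∈ EE f ∧ P ∉ E1' σ f w x
      · have h4 : ¬ ∀ U ∈ nhds (w, x), ∃ (W : K) (z : Fin n → K), (σ W, fun i => σ (z i)) ∈ U ∧ RR' σ f W z P :=
          fun h => hP.2 ⟨hP.1, h⟩
        push Not at h4
        obtain ⟨U, hU, h5⟩ := h4
        exact ⟨U, hU, fun _ _ => h5⟩
      · exact ⟨Set.univ, Filter.univ_mem, fun h4 h5 => absurd ⟨h4, h5⟩ hP⟩
    have hB : ∀ t : K × (Fin n → K), ∃ U ∈ nhds (w, x), t ∈ TT0 f → (σ t.1, fun i => σ (t.2 i)) ∈ U →
        t ∈ T1 σ f w x := by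
      intro t
      by_cases ht : (σ t.1, fun i => σ (t.2 i)) = (w, x)
      · exact ⟨Set.univ, Filter.univ_mem, fun h4 _ => ⟨h4, ht⟩⟩
      · refine ⟨{(σ t.1, fun i => σ (t.2 i))}ᶜ, ?_, fun _ h5 => absurd rfl h5⟩
        exact isOpen_compl_singleton.mem_nhds (fun h => ht h.symm)
    have hC : ∃ U ∈ nhds (w, x), ∀ (z : Fin n → K), eval z f = 0 → ((0 : L), fun i => σ (z i)) ∈ U →
        eval (fun o => o.elim 0 z) g = 0 := by
      unfold QQ at h3
      by_cases hw : w = 0
      · rw [if_pos hw] at h3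
        obtain ⟨U, hU, h5⟩ := h3
        refine ⟨{q | q.2 ∈ U}, ?_, ?_⟩
        · exact continuous_snd.continuousAt.preimage_mem_nhds hU
        · intro z hz hzU
          rw [← eval_br]
          exact h5 z hz hzU
      · refine ⟨{q | q.1 ≠ 0}, ?_, ?_⟩
        · exact (isOpen_compl_singleton.preimage continuous_fst).mem_nhds hw
        · intro z _ hzU
          exact absurd rfl hzU
    choose UA hUA hUA1 using hA
    choose UB hUB hUB1 using hB
    obtain ⟨UC, hUC, hUC1⟩ := hC
    refine ⟨(⋂ P ∈ EE f, UA P) ∩ (⋂ t ∈ TT0 f, UB t) ∩ UC,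
      Filter.inter_mem (Filter.inter_mem ((Filter.biInter_mem hE).2 fun P _ => hUA P)
        ((Filter.biInter_mem hT).2 fun t _ => hUB t)) hUC, ?_⟩
    rintro W z hWz ⟨⟨hinA, hinB⟩, hinC⟩
    rw [Set.mem_iInter₂] at hinA hinB
    by_cases hWz0 : W = 0
    · subst hWz0
      rw [map_zero] at hinC
      refine hUC1 z ?_ hinC
      rw [← hWz]
      ring
    · by_cases htor : ∀ i, TorN f z i
      · have ht : (W, z) ∈ TT0 f := ⟨hWz, htor⟩
        exact h2 (W, z) (hUB1 (W, z) ht (hinB (W, z) ht))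
      · push Not at htor
        obtain ⟨P, hP, hR⟩ := hkey W z hWz0 hWz htor
        have hPE : P ∈ E1' σ f w x := by
          by_contra hPn
          exact hUA1 P hP hPn W z (hinA P hP) hR
        exact eval_IQ (h1 P hPE) hWz hR.1

end

theorem card_pow {α : Type*} {s : Set α} {N : ℕ} (h : s.encard ≤ N) :
    {t : Set α | t ⊆ s}.encard ≤ ((2 ^ N : ℕ) : ℕ∞) := by
  rw [Set.encard_le_coe_iff_finite_ncard_le] at h ⊢
  have h1 : {t : Set α | t ⊆ s} = 𝒫 s := rfl
  rw [h1]
  refine ⟨h.1.powerset, ?_⟩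
  rw [Set.ncard_powerset s h.1]
  exact Nat.pow_le_pow_right (by norm_num) h.2

/-- **The local closures in an affine chart.** -/
theorem aff (h2 : S_CLA) (h3 : S_NSQ) {K : Type} [Field K] [NumberField K] {n : ℕ} (f : MvPolynomial (Fin n) K)
    (hf : ∀ j, f.degreeOf j ≤ 4) (hsm : SmoothN f) (N1 N2 : ℕ) (hE : (EE f).encard ≤ N1) (hT : (TT0 f).encard ≤ N2)
    {L : Type} [NontriviallyNormedField L] [CompleteSpace L] (σ : K →+* L) (hσ : DenseRange σ) :
    -- (a) off the branch divisor, off the special planes and off the torsion points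
    (∀ (w : L) (x : Fin n → L), w ≠ 0 →
      (∀ J : Finset (Fin n), J.Nonempty → J ≠ Finset.univ → ∀ z : Fin n → K, eval z f ≠ 0 → SpecN f z J →
        ¬ ∀ k, k ∉ J → x k = σ (z k)) →
      (∀ t ∈ TT0 f, (fun i => σ (t.2 i)) ≠ x) →
      locN σ f w x = Set.univ ∨ locN σ f w x = {g | (X none ^ 2 - rename some f) ∣ g}) ∧
    -- (b) the number of the local closures off the branch divisor
    {J | ∃ (w : L) (x : Fin n → L), w ≠ 0 ∧ w ^ 2 = eval₂ σ x f ∧ J = locN σ f w x}.encard ≤
      ((2 ^ N1 * 2 ^ N2 : ℕ) : ℕ∞) ∧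
    -- (c) the number of all local closures
    ∀ b : ℕ, {J : Set (MvPolynomial (Fin n) K) | ∃ x : Fin n → L, eval₂ σ x f = 0 ∧ J = JB σ f x}.encard ≤ b →
      {J | ∃ (w : L) (x : Fin n → L), w ^ 2 = eval₂ σ x f ∧ J = locN σ f w x}.encard ≤
        ((2 ^ N1 * 2 ^ N2 * (b + 1) : ℕ) : ℕ∞) := by
  classical
  have : Infinite K := CharZero.infinite K
  have hEf : (EE f).Finite := Set.finite_of_encard_le_coe hE
  have hTf : (TT0 f).Finite := Set.finite_of_encard_le_coe hT
  have hfin : FinSpec f := by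
    intro J hJ _
    refine hEf.subset ?_
    rintro P ⟨z, h1, h2, h3⟩
    exact ⟨J, hJ, z, h1, h2, h3⟩
  have hkey : ∀ (W : K) (z : Fin n → K), W ≠ 0 → W ^ 2 = eval z f → (∃ i, ¬ TorN f z i) →
      ∃ P ∈ EE f, RR' σ f W z P := by
    intro W z hW hWz hnt
    obtain ⟨J, hJ, hspec, hI⟩ := key' h2 h3 f hf hsm hfin σ hσ W z hW hWz hnt
    refine ⟨{y | OnPl J z y}, ⟨J, hJ, z, ?_, hspec, rfl⟩, on_refl J z, hI⟩
    rw [← hWz]
    exact pow_ne_zero 2 hW
  have hsub1 : ∀ w x, E1' σ f w x ⊆ EE f := fun w x P hP => hP.1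
  have hsub2 : ∀ w x, T1 σ f w x ⊆ TT0 f := fun w x t ht => ht.1
  have hprod : ({E' : Set (Set (Fin n → K)) | E' ⊆ EE f} ×ˢ {T' : Set (K × (Fin n → K)) | T' ⊆ TT0 f}).encard ≤
      ((2 ^ N1 * 2 ^ N2 : ℕ) : ℕ∞) := by
    rw [Set.encard_prod, Nat.cast_mul]
    exact mul_le_mul' (card_pow hE) (card_pow hT)
  refine ⟨?_, ?_, ?_⟩
  · intro w x hw hx ht
    rw [locN_eq' σ f hEf hTf hkey w x]
    have hQ : QQ σ f w x = Set.univ := by
      unfold QQ
      rw [if_neg hw]
    have hT1 : T1 σ f w x = ∅ := by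
      rw [Set.eq_empty_iff_forall_notMem]
      rintro t ⟨h4, h5⟩
      exact ht t h4 (congrArg Prod.snd h5)
    have hE1 : ∀ P ∈ E1' σ f w x, P = Set.univ := by
      rintro P ⟨⟨J, hJ, z, hz, hsp, rfl⟩, hU⟩
      by_cases hJu : J = Finset.univ
      · rw [Set.eq_univ_iff_forall]
        intro y k hk
        exact absurd (by rw [hJu]; exact Finset.mem_univ k) hk
      · exfalso
        refine hx J hJ hJu z hz hsp fun k hk => ?_
        by_contra hne
        obtain ⟨U, V, hU1, hV1, hxU, hzV, hUV⟩ := t2_separation hne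
        obtain ⟨W, z', h4, h5, -⟩ := hU {q | q.2 k ∈ U} (by
          refine (hU1.preimage ((continuous_apply k).comp continuous_snd)).mem_nhds ?_
          exact hxU)
        have h6 : z' k = z k := h5 k hk
        have h7 : σ (z' k) ∈ U := h4
        rw [h6] at h7
        exact Set.disjoint_left.1 hUV h7 hzV
    rw [hQ, hT1]
    by_cases h0 : E1' σ f w x = ∅
    · left
      rw [h0, Set.eq_univ_iff_forall]
      intro g
      exact ⟨fun P hP => absurd hP (Set.notMem_empty P), fun t ht => absurd ht (Set.notMem_empty t),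
        Set.mem_univ g⟩
    · right
      obtain ⟨P, hP⟩ := Set.nonempty_iff_ne_empty.2 h0
      rw [← IQ_univ]
      ext g
      constructor
      · rintro ⟨h4, -, -⟩
        have h5 := h4 P hP
        rwa [hE1 P hP] at h5
      · intro h4
        refine ⟨fun P' hP' => ?_, fun t ht => absurd ht (Set.notMem_empty t), Set.mem_univ g⟩
        rw [hE1 P' hP']
        exact h4
  · refine le_trans (Set.encard_le_encard ?_) ((Set.encard_image_le
      (fun q : Set (Set (Fin n → K)) × Set (K × (Fin n → K)) => PHI' f q.1 q.2 Set.univ) _).trans hprod)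
    rintro J ⟨w, x, hw, -, rfl⟩
    refine ⟨(E1' σ f w x, T1 σ f w x), ⟨hsub1 w x, hsub2 w x⟩, ?_⟩
    rw [locN_eq' σ f hEf hTf hkey w x]
    unfold QQ
    rw [if_neg hw]
  · intro b hb
    have hb2 : (insert (Set.univ : Set (MvPolynomial (Option (Fin n)) K))
        ((fun J => {g : MvPolynomial (Option (Fin n)) K | br g ∈ J}) ''
          {J : Set (MvPolynomial (Fin n) K) | ∃ x : Fin n → L, eval₂ σ x f = 0 ∧ J = JB σ f x})).encard ≤
        ((b + 1 : ℕ) : ℕ∞) := by
      refine (Set.encard_insert_le _ _).trans ?_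
      rw [Nat.cast_add, Nat.cast_one]
      exact add_le_add_left ((Set.encard_image_le _ _).trans hb) 1
    have hprod2 : (({E' : Set (Set (Fin n → K)) | E' ⊆ EE f} ×ˢ {T' : Set (K × (Fin n → K)) | T' ⊆ TT0 f}) ×ˢ
        (insert (Set.univ : Set (MvPolynomial (Option (Fin n)) K))
        ((fun J => {g : MvPolynomial (Option (Fin n)) K | br g ∈ J}) ''
          {J : Set (MvPolynomial (Fin n) K) | ∃ x : Fin n → L, eval₂ σ x f = 0 ∧ J = JB σ f x}))).encard ≤
        ((2 ^ N1 * 2 ^ N2 * (b + 1) : ℕ) : ℕ∞) := by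
      rw [Set.encard_prod, Nat.cast_mul]
      exact mul_le_mul' hprod hb2
    refine le_trans (Set.encard_le_encard ?_) ((Set.encard_image_le
      (fun q : (Set (Set (Fin n → K)) × Set (K × (Fin n → K))) × Set (MvPolynomial (Option (Fin n)) K) =>
      PHI' f q.1.1 q.1.2 q.2) _).trans hprod2)
    rintro J ⟨w, x, hwx, rfl⟩
    refine ⟨((E1' σ f w x, T1 σ f w x), QQ σ f w x), ⟨⟨hsub1 w x, hsub2 w x⟩, ?_⟩, ?_⟩
    · change QQ σ f w x ∈ _
      unfold QQ
      by_cases hw : w = 0
      · rw [if_pos hw]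
        right
        refine ⟨JB σ f x, ⟨x, ?_, rfl⟩, rfl⟩
        rw [← hwx, hw]
        ring
      · rw [if_neg hw]
        left
        rfl
    · exact (locN_eq' σ f hEf hTf hkey w x).symm

end Pool.Agent.H58U
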