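import Pool.Agent.H58U.Proj
import Pool.Agent.Q35.TB.All

/-!
# Bounds for the numbers of special planes and torsion points, uniform in twists and extensions (helper58)
-/

set_option autoImplicit false
set_option linter.unusedSectionVars false

open MvPolynomial Pool.Agent.Q35.TT Pool.Agent.Q35.TB Pool.Agent.Q224.TT Pool.Agent.Q68.TT.Mzf

namespace Pool.Agent.H58U

theorem EE_twist {K : Type} [Field K] [CharZero K] {n : ℕ} (f : MvPolynomial (Fin n) K)
    (hf : ∀ j, f.degreeOf j ≤ 4) (e : K) (he : e ≠ 0) : EE (C e * f) = EE f := by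
  have hi := (inv2 K n f hf e he).2.2.2
  ext P
  constructor
  · rintro ⟨J, hJ, z, hz, hsp, rfl⟩
    refine ⟨J, hJ, z, ?_, ((hi z).2 J).1 hsp, rfl⟩
    intro h0
    apply hz
    rw [map_mul, h0, mul_zero]
  · rintro ⟨J, hJ, z, hz, hsp, rfl⟩
    refine ⟨J, hJ, z, ?_, ((hi z).2 J).2 hsp, rfl⟩
    rw [map_mul, eval_C]
    exact mul_ne_zero he hz

theorem EE_ext {K L : Type} [Field K] [Field L] [CharZero K] [CharZero L] [Algebra K L]
    [Algebra.IsAlgebraic K L] {n : ℕ} (F : MvPolynomial (Fin n × Fin 2) K) (hF : Hom4 F)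
    (ε : Fin n → Fin 2) :
    EE (ch F ε) ⊆ (fun P : Set (Fin n → L) => {y : Fin n → K | (fun j => algebraMap K L (y j)) ∈ P}) ''
      EE (ch (ex L F) ε) := by
  rintro P ⟨J, hJ, z, hz, hsp, rfl⟩
  obtain ⟨e1, -, e3, e4, -⟩ := exf2 K L n F hF
  refine ⟨{y | OnPl J (fun j => algebraMap K L (z j)) y}, ⟨J, hJ, fun j => algebraMap K L (z j), ?_, ?_, rfl⟩, ?_⟩
  · rw [e3 ε, Pool.Agent.Q13.TB.eval_ex, Ne, map_eq_zero]
    exact hz
  · have h1 := ((Pool.Agent.Q182.TT.CHF.chf K n F hF ε).2.2.2.1 z J).1 hsp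
    have h2 := (e4 (pt ε z) J).2 h1
    refine ((Pool.Agent.Q182.TT.CHF.chf L n (ex L F) e1 ε).2.2.2.1 _ J).2 ?_
    have h3 : (fun p => algebraMap K L (pt ε z p)) = pt ε (fun j => algebraMap K L (z j)) :=
      funext fun p => pt_map (algebraMap K L) ε z p
    rw [← h3]
    exact h2
  · ext y
    constructor
    · intro hy k hk
      exact (algebraMap K L).injective (hy k hk)
    · intro hy k hk
      exact congrArg (algebraMap K L) (hy k hk)

theorem EE_ext_card {K L : Type} [Field K] [Field L] [CharZero K] [CharZero L] [Algebra K L]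
    [Algebra.IsAlgebraic K L] {n : ℕ} (F : MvPolynomial (Fin n × Fin 2) K) (hF : Hom4 F)
    (ε : Fin n → Fin 2) : (EE (ch F ε)).encard ≤ (EE (ch (ex L F) ε)).encard :=
  (Set.encard_le_encard (EE_ext F hF ε)).trans (Set.encard_image_le _ _)

/-- the number of the points torsion in all directions -/
theorem TT0_card {L Ω : Type} [Field L] [Field Ω] (φ : L →+* Ω) {n : ℕ} (f : MvPolynomial (Fin n) L)
    (T : Set (Fin n → Ω)) (m : ℕ) (hT : T.encard ≤ m)
    (h : ∀ z : Fin n → L, (∀ i, TorN f z i) → (fun j => φ (z j)) ∈ T) :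
    (TT0 f).encard ≤ ((m * 2 : ℕ) : ℕ∞) := by
  classical
  let zt : (Fin n → Ω) → Fin n → L := fun t =>
    if h : ∃ z : Fin n → L, (fun j => φ (z j)) = t then h.choose else 0
  let Wt : (Fin n → Ω) → L := fun t =>
    if h : ∃ W : L, W ^ 2 = eval (zt t) f then h.choose else 0
  have hz : ∀ z : Fin n → L, zt (fun j => φ (z j)) = z := by
    intro z
    have hex : ∃ z' : Fin n → L, (fun j => φ (z' j)) = fun j => φ (z j) := ⟨z, rfl⟩
    have h1 : zt (fun j => φ (z j)) = hex.choose := dif_pos hex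
    rw [h1]
    funext j
    exact φ.injective (congrFun hex.choose_spec j)
  have hsub : TT0 f ⊆ (fun q : (Fin n → Ω) × Bool => (if q.2 then Wt q.1 else - Wt q.1, zt q.1)) ''
      (T ×ˢ (Set.univ : Set Bool)) := by
    rintro ⟨W, z⟩ ⟨h1, h2⟩
    change W ^ 2 = eval z f at h1
    have hex : ∃ W : L, W ^ 2 = eval (zt (fun j => φ (z j))) f := ⟨W, by rw [hz]; exact h1⟩
    have h3 : Wt (fun j => φ (z j)) = hex.choose := dif_pos hex
    have h4 : Wt (fun j => φ (z j)) ^ 2 = W ^ 2 := by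
      rw [h3, hex.choose_spec, hz]
      exact h1.symm
    rcases sq_eq_sq_iff_eq_or_eq_neg.1 h4 with h5 | h5
    · refine ⟨(fun j => φ (z j), true), ⟨h z h2, Set.mem_univ _⟩, ?_⟩
      simp only [if_true, hz, h5]
    · refine ⟨(fun j => φ (z j), false), ⟨h z h2, Set.mem_univ _⟩, ?_⟩
      simp [hz, h5]
  refine (Set.encard_le_encard hsub).trans ((Set.encard_image_le _ _).trans ?_)
  rw [Set.encard_prod, Nat.cast_mul]
  refine mul_le_mul' hT ?_
  rw [Set.encard_univ]
  simp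

/-- **Uniform bounds.** -/
theorem unif (K : Type) [Field K] [NumberField K] (n : ℕ) (F : MvPolynomial (Fin n × Fin 2) K) (hF : Hom4 F)
    (hS : SmoothF F) (hfin : FinSpecF (ex (AlgebraicClosure K) F)) (D : ℕ) :
    ∃ (N1 N2 : (Fin n → Fin 2) → ℕ) (T : (Fin n → Fin 2) → Set (Fin n → AlgebraicClosure K)),
      (∀ ε, (T ε).Finite) ∧
      ∀ (L : Type) [Field L] [NumberField L] [Algebra K L], Module.finrank K L ≤ D → ∀ e : L, e ≠ 0 → ∀ ε,
        (EE (C e * ch (ex L F) ε)).encard ≤ N1 ε ∧ (TT0 (C e * ch (ex L F) ε)).encard ≤ N2 ε ∧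
        ∀ z : Fin n → L, (∀ i, TorN (ch (ex L F) ε) z i) → ∀ φ : L →ₐ[K] AlgebraicClosure K,
          (fun j => φ (z j)) ∈ T ε := by
  classical
  have hT : ∀ ε : Fin n → Fin 2, ∃ T : Set (Fin n → AlgebraicClosure K), T.Finite ∧
      ∀ (L : Type) [Field L] [NumberField L] [Algebra K L], Module.finrank K L ≤ D →
      ∀ z : Fin n → L, (∀ i, TorN (ex L (ch F ε)) z i) → ∀ φ : L →ₐ[K] AlgebraicClosure K,
        (fun j => φ (z j)) ∈ T := fun ε =>
    taf2 K n (ch F ε) (Pool.Agent.Q182.TT.CHF.chf K n F hF ε).1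
      ((Pool.Agent.Q182.TT.CHF.chf K n F hF ε).2.1 hS) D
  choose T hTf hT2 using hT
  have hFb : Hom4 (ex (AlgebraicClosure K) F) := (exf2 K (AlgebraicClosure K) n F hF).1
  have hEb : ∀ ε : Fin n → Fin 2, (EE (ch (ex (AlgebraicClosure K) F) ε)).Finite := fun ε =>
    EE_finite _ ((Pool.Agent.Q182.TT.CHF.chf (AlgebraicClosure K) n _ hFb ε).2.2.2.2.1 hfin)
  refine ⟨fun ε => (EE (ch (ex (AlgebraicClosure K) F) ε)).ncard, fun ε => (T ε).ncard * 2, T, hTf, ?_⟩
  intro L _ _ _ hD e he ε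
  have : Module.Finite K L := Module.Finite.of_restrictScalars_finite ℚ K L
  have : Algebra.IsAlgebraic K L := Algebra.IsAlgebraic.of_finite K L
  obtain ⟨e1, e2, e3, -, -⟩ := exf2 K L n F hF
  have hd : ∀ j, (ch (ex L F) ε).degreeOf j ≤ 4 := (Pool.Agent.Q182.TT.CHF.chf L n (ex L F) e1 ε).1
  have htor : ∀ z : Fin n → L, (∀ i, TorN (ch (ex L F) ε) z i) → ∀ φ : L →ₐ[K] AlgebraicClosure K,
      (fun j => φ (z j)) ∈ T ε := by
    intro z hz φ
    rw [e3 ε] at hz
    exact hT2 ε L hD z hz φ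
  let φ : L →ₐ[K] AlgebraicClosure K := IsAlgClosed.lift
  refine ⟨?_, ?_, htor⟩
  · rw [EE_twist _ hd e he]
    letI : Algebra L (AlgebraicClosure K) := φ.toRingHom.toAlgebra
    have hsc : IsScalarTower K L (AlgebraicClosure K) := IsScalarTower.of_algebraMap_eq fun x => (φ.commutes x).symm
    have : Algebra.IsAlgebraic L (AlgebraicClosure K) := Algebra.IsAlgebraic.tower_top (K := K) L
    have h1 := EE_ext_card (L := AlgebraicClosure K) (ex L F) e1 ε
    have h2 : ex (AlgebraicClosure K) (ex L F) = ex (AlgebraicClosure K) F := by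
      show map _ (map _ F) = map _ F
      rw [MvPolynomial.map_map, ← IsScalarTower.algebraMap_eq]
    rw [h2] at h1
    refine h1.trans ?_
    rw [(hEb ε).cast_ncard_eq]
  · refine TT0_card (φ : L →+* AlgebraicClosure K) _ (T ε) (T ε).ncard ?_ ?_
    · rw [(hTf ε).cast_ncard_eq]
    · intro z hz
      refine htor z (fun i => ?_) φ
      exact (((inv2 L n (ch (ex L F) ε) hd e he).2.2.2 z).1 i).1 (hz i)

end Pool.Agent.H58U
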