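import Pool.Agent.Q35.TT.Stm4

/-!
# The local ideals of the branch divisor if it has finitely many rational points (helper58)
-/

set_option autoImplicit false

open MvPolynomial Pool.Agent.Q35.TT

namespace Pool.Agent.H58U

variable {K L : Type} [Field K] [NontriviallyNormedField L] {n : ℕ}

/-- proportional pairs -/
theorem prop_of_det {F : Type} [Field F] {x t : Fin 2 → F} (hx : ∃ b, x b ≠ 0) (ht : ∃ b, t b ≠ 0)
    (h : x 0 * t 1 = x 1 * t 0) : ∃ a : F, a ≠ 0 ∧ ∀ b, x b = a * t b := by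
  by_cases h0 : t 0 = 0
  · have h1 : t 1 ≠ 0 := by
      obtain ⟨b, hb⟩ := ht
      fin_cases b
      · exact absurd h0 hb
      · exact hb
    have h2 : x 0 = 0 := by
      rw [h0, mul_zero] at h
      exact (mul_eq_zero.1 h).resolve_right h1
    have h3 : x 1 ≠ 0 := by
      obtain ⟨b, hb⟩ := hx
      fin_cases b
      · exact absurd h2 hb
      · exact hb
    refine ⟨x 1 / t 1, div_ne_zero h3 h1, fun b => ?_⟩
    fin_cases b
    · show x 0 = x 1 / t 1 * t 0
      rw [h2, h0, mul_zero]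
    · show x 1 = x 1 / t 1 * t 1
      rw [div_mul_cancel₀ _ h1]
  · have h2 : x 0 ≠ 0 := by
      intro h2
      rw [h2, zero_mul] at h
      have h3 := (mul_eq_zero.1 h.symm).resolve_right h0
      obtain ⟨b, hb⟩ := hx
      fin_cases b
      · exact hb h2
      · exact hb h3
    refine ⟨x 0 / t 0, div_ne_zero h2 h0, fun b => ?_⟩
    fin_cases b
    · show x 0 = x 0 / t 0 * t 0
      rw [div_mul_cancel₀ _ h0]
    · show x 1 = x 0 / t 0 * t 1
      rw [div_mul_eq_mul_div, h, mul_div_cancel_right₀ _ h0]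

/-- the polynomials vanishing at all coordinate vectors of a point -/
def Ipt (X : Fin n × Fin 2 → K) : Set (MvPolynomial (Fin n × Fin 2) K) :=
  {g | ∀ a : Fin n → K, eval (fun p => a p.1 * X p) g = 0}

theorem Ipt_scale (X : Fin n × Fin 2 → K) (c : Fin n → K) (hc : ∀ j, c j ≠ 0) :
    Ipt (fun p => c p.1 * X p) = Ipt X := by
  ext g
  constructor
  · intro h a
    have h1 := h fun j => a j / c j
    have h2 : (fun p : Fin n × Fin 2 => a p.1 / c p.1 * (c p.1 * X p)) = fun p => a p.1 * X p := by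
      funext p
      rw [← mul_assoc, div_mul_cancel₀ _ (hc p.1)]
    rw [h2] at h1
    exact h1
  · intro h a
    have h1 := h fun j => a j * c j
    have h2 : (fun p : Fin n × Fin 2 => a p.1 * c p.1 * X p) = fun p => a p.1 * (c p.1 * X p) := by
      funext p
      rw [mul_assoc]
    rw [h2] at h1
    exact h1

open Classical in
/-- a neighbourhood of `x` in which the only rational point from a finite set is `x` itself -/
theorem sep (σ : K →+* L) (S : Finset (Fin n × Fin 2 → K)) (x : Fin n × Fin 2 → L)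
    (hx : ∀ j, ∃ b, x (j, b) ≠ 0) :
    ∃ U ∈ nhds x, ∀ t ∈ S, ∀ (X : Fin n × Fin 2 → K), (∀ j, ∃ b, X (j, b) ≠ 0) →
      (∃ c : Fin n → K, X = fun p => c p.1 * t p) → ∀ a : Fin n → L, (fun p => a p.1 * σ (X p)) ∈ U →
      ∃ a' : Fin n → L, (∀ j, a' j ≠ 0) ∧ x = fun p => a' p.1 * σ (X p) := by
  have h : ∀ t : Fin n × Fin 2 → K, ∃ U ∈ nhds x, ∀ (X : Fin n × Fin 2 → K), (∀ j, ∃ b, X (j, b) ≠ 0) →
      (∃ c : Fin n → K, X = fun p => c p.1 * t p) → ∀ a : Fin n → L, (fun p => a p.1 * σ (X p)) ∈ U →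
      ∃ a' : Fin n → L, (∀ j, a' j ≠ 0) ∧ x = fun p => a' p.1 * σ (X p) := by
    intro t
    by_cases hd : ∃ j, x (j, 0) * σ (t (j, 1)) ≠ x (j, 1) * σ (t (j, 0))
    · obtain ⟨j, hj⟩ := hd
      refine ⟨{y | y (j, 0) * σ (t (j, 1)) ≠ y (j, 1) * σ (t (j, 0))}, ?_, ?_⟩
      · refine IsOpen.mem_nhds ?_ hj
        refine isOpen_ne_fun ?_ ?_
        · exact (continuous_apply (j, 0)).mul continuous_const
        · exact (continuous_apply (j, 1)).mul continuous_const
      · rintro X hX ⟨c, rfl⟩ a ha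
        exfalso
        apply ha
        simp only [map_mul]
        ring
    · push Not at hd
      refine ⟨Set.univ, Filter.univ_mem, ?_⟩
      rintro X hX ⟨c, hXc⟩ a -
      have h1 : ∀ j, ∃ a' : L, a' ≠ 0 ∧ ∀ b, x (j, b) = a' * σ (X (j, b)) := by
        intro j
        refine prop_of_det (x := fun b => x (j, b)) (t := fun b => σ (X (j, b))) (hx j) ?_ ?_
        · obtain ⟨b, hb⟩ := hX j
          exact ⟨b, (_root_.map_ne_zero σ).2 hb⟩
        · rw [hXc]
          simp only [map_mul]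
          linear_combination σ (c j) * hd j
      choose a' ha' using h1
      exact ⟨a', fun j => (ha' j).1, funext fun p => (ha' p.1).2 p.2⟩
  choose U hU hU' using h
  exact ⟨⋂ t ∈ S, U t, (Filter.biInter_finset_mem _).2 fun t _ => hU t, fun t ht X hX hc a ha =>
    hU' t X hX hc a (Set.mem_iInter₂.1 ha t ht)⟩

/-- **The local ideals of a divisor with finitely many rational points.** -/
theorem locB_card (σ : K →+* L) (F : MvPolynomial (Fin n × Fin 2) K) (S : Finset (Fin n × Fin 2 → K))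
    (hGs : ∀ (x : Fin n × Fin 2 → L) (a : Fin n → L), eval₂ σ (fun p => a p.1 * x p) F =
      (∏ j, a j) ^ 4 * eval₂ σ x F)
    (hS : ∀ X : Fin n × Fin 2 → K, (∀ j, ∃ b, X (j, b) ≠ 0) → eval X F = 0 →
      ∃ t ∈ S, ∃ c : Fin n → K, X = fun p => c p.1 * t p) :
    {J | ∃ x : Fin n × Fin 2 → L, (∀ j, ∃ b, x (j, b) ≠ 0) ∧ eval₂ σ x F = 0 ∧
      J = locB σ F x}.encard ≤ ((S.card + 1 : ℕ) : ℕ∞) := by
  classical
  have hsub : {J | ∃ x : Fin n × Fin 2 → L, (∀ j, ∃ b, x (j, b) ≠ 0) ∧ eval₂ σ x F = 0 ∧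
      J = locB σ F x} ⊆ insert Set.univ ((fun t => Ipt t) '' (S : Set (Fin n × Fin 2 → K))) := by
    rintro J ⟨x, hx, hFx, rfl⟩
    obtain ⟨U, hU, hU'⟩ := sep σ S x hx
    by_cases hex : ∃ X : Fin n × Fin 2 → K, ∃ a' : Fin n → L, (∀ j, a' j ≠ 0) ∧ x = fun p => a' p.1 * σ (X p)
    · right
      obtain ⟨X, a', ha', hxX⟩ := hex
      have hX : ∀ j, ∃ b, X (j, b) ≠ 0 := by
        intro j
        obtain ⟨b, hb⟩ := hx j
        refine ⟨b, fun h0 => hb ?_⟩
        rw [hxX]
        show a' j * σ (X (j, b)) = 0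
        rw [h0, map_zero, mul_zero]
      have hFX : eval X F = 0 := by
        have h1 := hGs (fun p => σ (X p)) a'
        rw [← hxX, hFx] at h1
        have h2 := (mul_eq_zero.1 h1.symm).resolve_left (pow_ne_zero 4 (Finset.prod_ne_zero_iff.2 fun j _ => ha' j))
        have h3 : eval₂ σ (fun p => σ (X p)) F = σ (eval X F) :=
          (eval₂_comp_left σ (RingHom.id K) X F).symm
        rw [h3, map_eq_zero] at h2
        exact h2
      obtain ⟨t, ht, c, hXt⟩ := hS X hX hFX
      have hc : ∀ j, c j ≠ 0 := by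
        intro j h0
        obtain ⟨b, hb⟩ := hX j
        apply hb
        rw [hXt]
        show c j * t (j, b) = 0
        rw [h0, zero_mul]
      refine ⟨t, ht, ?_⟩
      show Ipt t = locB σ F x
      rw [← Ipt_scale t c hc, ← hXt]
      ext g
      constructor
      · intro hg
        refine ⟨U, hU, ?_⟩
        rintro X' hX' hFX' ⟨b, hb, hbU⟩ a
        obtain ⟨t', ht', c', hc'⟩ := hS X' hX' hFX'
        obtain ⟨a'', ha'', hxX'⟩ := hU' t' ht' X' hX' ⟨c', hc'⟩ b hbU
        -- X' and X are proportional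
        have hpr : ∀ j, ∃ d : K, d ≠ 0 ∧ ∀ b, X' (j, b) = d * X (j, b) := by
          intro j
          refine prop_of_det (x := fun b => X' (j, b)) (t := fun b => X (j, b)) (hX' j) (hX j) ?_
          apply σ.injective
          rw [map_mul, map_mul]
          have e0 := congrFun (hxX.symm.trans hxX') (j, 0)
          have e1 := congrFun (hxX.symm.trans hxX') (j, 1)
          simp only at e0 e1
          have h1 : a' j * (a'' j * (σ (X' (j, 0)) * σ (X (j, 1)) - σ (X' (j, 1)) * σ (X (j, 0)))) = 0 := by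
            linear_combination (a'' j * σ (X' (j, 0))) * e1 - (a'' j * σ (X' (j, 1))) * e0
          have h2 := (mul_eq_zero.1 ((mul_eq_zero.1 h1).resolve_left (ha' j))).resolve_left (ha'' j)
          exact sub_eq_zero.1 h2
        choose d hd using hpr
        have h2 := hg fun j => a j * d j
        have h3 : (fun p : Fin n × Fin 2 => a p.1 * d p.1 * X p) = fun p => a p.1 * X' p := by
          funext p
          rw [mul_assoc, (hd p.1).2 p.2]
        rw [h3] at h2
        exact h2
      · rintro ⟨V, hV, hg⟩ a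
        refine hg X hX hFX ⟨a', ha', ?_⟩ a
        rw [← hxX]
        exact mem_of_mem_nhds hV
    · left
      rw [Set.eq_univ_iff_forall]
      intro g
      refine ⟨U, hU, ?_⟩
      rintro X' hX' hFX' ⟨b, hb, hbU⟩ a
      obtain ⟨t', ht', c', hc'⟩ := hS X' hX' hFX'
      exact absurd ⟨X', hU' t' ht' X' hX' ⟨c', hc'⟩ b hbU⟩ hex
  refine (Set.encard_le_encard hsub).trans ((Set.encard_insert_le _ _).trans ?_)
  rw [Nat.cast_add, Nat.cast_one]
  refine add_le_add_left ((Set.encard_image_le _ _).trans ?_) 1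
  rw [Set.encard_coe_eq_coe_finsetCard]

end Pool.Agent.H58U
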