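import Pool.Agent.H58U.Proj

/-!
# The local closures of `w² = F` off the branch divisor: full description (helper58)
-/

set_option autoImplicit false
set_option linter.unusedSectionVars false

open MvPolynomial Pool.Agent.Q35.TT Pool.Agent.Q224.TT Pool.Agent.Q68.TT.Mzf

namespace Pool.Agent.H58U

/-! ### Affine charts -/

section

variable {K : Type} [Field K] {n : ℕ} {L : Type} [NontriviallyNormedField L]

/-- enough to vanish at the rational points over the planes -/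
theorem locN_of (σ : K →+* L) (f : MvPolynomial (Fin n) K) (hE : (EE f).Finite) (hT : (TT0 f).Finite)
    (hkey : ∀ (W : K) (z : Fin n → K), W ≠ 0 → W ^ 2 = eval z f → (∃ i, ¬ TorN f z i) → ∃ P ∈ EE f, RR' σ f W z P)
    (w : L) (x : Fin n → L) (hw : w ≠ 0) (g : MvPolynomial (Option (Fin n)) K)
    (h1 : ∀ P ∈ E1' σ f w x, g ∈ IP f P) (h2 : ∀ t ∈ T1 σ f w x, eval (fun o => o.elim t.1 t.2) g = 0) :
    g ∈ locN σ f w x := by
  classical
  have hA : ∀ P, ∃ U ∈ nhds (w, x), P ∈ EE f → P ∉ E1' σ f w x → ∀ (W : K) (z : Fin n → K),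
      (σ W, fun i => σ (z i)) ∈ U → ¬ RR' σ f W z P := by
    intro P
    by_cases hP : P ∈ EE f ∧ P ∉ E1' σ f w x
    · have h4 : ¬ ∀ U ∈ nhds (w, x), ∃ (W : K) (z : Fin n → K), (σ W, fun i => σ (z i)) ∈ U ∧ RR' σ f W z P :=
        fun h => hP.2 ⟨hP.1, h⟩
      push Not at h4
      obtain ⟨U, hU, h5⟩ := h4
      exact ⟨U, hU, fun _ _ => h5⟩
    · exact ⟨Set.univ, Filter.univ_mem, fun h4 h5 => absurd ⟨h4, h5⟩ hP⟩
  have hB : ∀ t : K × (Fin n → K), ∃ U ∈ nhds (w, x), t ∈ TT0 f → (σ t.1, fun i => σ (t.2 i)) ∈ U →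
      t ∈ T1 σ f w x := by
    intro t
    by_cases ht : (σ t.1, fun i => σ (t.2 i)) = (w, x)
    · exact ⟨Set.univ, Filter.univ_mem, fun h4 _ => ⟨h4, ht⟩⟩
    · refine ⟨{(σ t.1, fun i => σ (t.2 i))}ᶜ, ?_, fun _ h5 => absurd rfl h5⟩
      exact isOpen_compl_singleton.mem_nhds (fun h => ht h.symm)
  choose UA hUA hUA1 using hA
  choose UB hUB hUB1 using hB
  refine ⟨(⋂ P ∈ EE f, UA P) ∩ (⋂ t ∈ TT0 f, UB t) ∩ {q | q.1 ≠ 0},
    Filter.inter_mem (Filter.inter_mem ((Filter.biInter_mem hE).2 fun P _ => hUA P)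
      ((Filter.biInter_mem hT).2 fun t _ => hUB t))
      ((isOpen_compl_singleton.preimage continuous_fst).mem_nhds hw), ?_⟩
  rintro W z hWz ⟨⟨hinA, hinB⟩, hinC⟩
  rw [Set.mem_iInter₂] at hinA hinB
  have hWz0 : W ≠ 0 := by
    rintro rfl
    exact hinC (map_zero σ)
  by_cases htor : ∀ i, TorN f z i
  · have ht : (W, z) ∈ TT0 f := ⟨hWz, htor⟩
    exact h2 (W, z) (hUB1 (W, z) ht (hinB (W, z) ht))
  · push Not at htor
    obtain ⟨P, hP, hR⟩ := hkey W z hWz0 hWz htor
    have hPE : P ∈ E1' σ f w x := by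
      by_contra hPn
      exact hUA1 P hP hPn W z (hinA P hP) hR
    exact h1 P hPE W z hWz hR.1

/-- the planes near a point pass through it -/
theorem on_of_mem (σ : K →+* L) (f : MvPolynomial (Fin n) K) {w : L} {x : Fin n → L} {J : Finset (Fin n)}
    {z : Fin n → K} (h : {y | OnPl J z y} ∈ E1' σ f w x) : ∀ k, k ∉ J → x k = σ (z k) := by
  intro k hk
  by_contra hne
  obtain ⟨U, V, hU1, hV1, hxU, hzV, hUV⟩ := t2_separation hne
  obtain ⟨W, z', h4, h5, -⟩ := h.2 {q | q.2 k ∈ U} (by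
    refine (hU1.preimage ((continuous_apply k).comp continuous_snd)).mem_nhds ?_
    exact hxU)
  have h6 : z' k = z k := h5 k hk
  have h7 : σ (z' k) ∈ U := h4
  rw [h6] at h7
  exact Set.disjoint_left.1 hUV h7 hzV

end

/-- **The local closures off the branch divisor in an affine chart.** -/
theorem affcls (h2 : S_CLA) (h3 : S_NSQ) {K : Type} [Field K] [NumberField K] {n : ℕ} (f : MvPolynomial (Fin n) K)
    (hf : ∀ j, f.degreeOf j ≤ 4) (hsm : SmoothN f) (hE : (EE f).Finite) (hT : (TT0 f).Finite)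
    {L : Type} [NontriviallyNormedField L] [CompleteSpace L] (σ : K →+* L) (hσ : DenseRange σ)
    (w : L) (x : Fin n → L) (hw : w ≠ 0) :
    locN σ f w x = Set.univ ∨
    (∃ t ∈ TT0 f, (σ t.1, fun i => σ (t.2 i)) = (w, x) ∧
      locN σ f w x = {g | eval (fun o => o.elim t.1 t.2) g = 0}) ∨
    ∃ E' : Set (Finset (Fin n) × (Fin n → K)), E'.Nonempty ∧
      (∀ q ∈ E', q.1.Nonempty ∧ eval q.2 f ≠ 0 ∧ SpecN f q.2 q.1 ∧ ∀ k, k ∉ q.1 → x k = σ (q.2 k)) ∧
      (∀ g ∈ locN σ f w x, ∀ q ∈ E', g ∈ IQ f {y | OnPl q.1 q.2 y}) ∧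
      ∀ g, (∀ q ∈ E', g ∈ IP f {y | OnPl q.1 q.2 y}) → g ∈ locN σ f w x := by
  classical
  have : Infinite K := CharZero.infinite K
  have hfin : FinSpec f := by
    intro J hJ _
    refine hE.subset ?_
    rintro P ⟨z, h1, h2, h3⟩
    exact ⟨J, hJ, z, h1, h2, h3⟩
  have hkey : ∀ (W : K) (z : Fin n → K), W ≠ 0 → W ^ 2 = eval z f → (∃ i, ¬ TorN f z i) →
      ∃ P ∈ EE f, RR' σ f W z P := by
    intro W z hW hWz hnt
    obtain ⟨J, hJ, hspec, hI⟩ := key' h2 h3 f hf hsm hfin σ hσ W z hW hWz hnt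
    refine ⟨{y | OnPl J z y}, ⟨J, hJ, z, ?_, hspec, rfl⟩, on_refl J z, hI⟩
    rw [← hWz]
    exact pow_ne_zero 2 hW
  have heq := locN_eq' σ f hE hT hkey w x
  have hQ : QQ σ f w x = Set.univ := by
    unfold QQ
    rw [if_neg hw]
  rw [hQ] at heq
  by_cases h0 : E1' σ f w x = ∅
  · by_cases h1 : T1 σ f w x = ∅
    · left
      rw [heq, h0, h1, Set.eq_univ_iff_forall]
      intro g
      exact ⟨fun P hP => absurd hP (Set.notMem_empty P), fun t ht => absurd ht (Set.notMem_empty t),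
        Set.mem_univ g⟩
    · right
      left
      obtain ⟨t, ht⟩ := Set.nonempty_iff_ne_empty.2 h1
      refine ⟨t, ht.1, ht.2, ?_⟩
      rw [heq, h0]
      ext g
      constructor
      · rintro ⟨-, h5, -⟩
        exact h5 t ht
      · intro h5
        refine ⟨fun P hP => absurd hP (Set.notMem_empty P), fun t' ht' => ?_, Set.mem_univ g⟩
        have h6 : t' = t := by
          have h7 := ht'.2.trans ht.2.symm
          rw [Prod.mk.injEq] at h7
          refine Prod.ext (σ.injective h7.1) (funext fun i => σ.injective (congrFun h7.2 i))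
        rw [h6]
        exact h5
  · right
    right
    obtain ⟨P, hP⟩ := Set.nonempty_iff_ne_empty.2 h0
    refine ⟨{q | q.1.Nonempty ∧ eval q.2 f ≠ 0 ∧ SpecN f q.2 q.1 ∧ {y | OnPl q.1 q.2 y} ∈ E1' σ f w x},
      ?_, ?_, ?_, ?_⟩
    · obtain ⟨⟨J, hJ, z, hz, hsp, rfl⟩, -⟩ := id hP
      exact ⟨(J, z), hJ, hz, hsp, hP⟩
    · rintro ⟨J, z⟩ ⟨h4, h5, h6, h7⟩
      exact ⟨h4, h5, h6, on_of_mem σ f h7⟩
    · rintro g hg ⟨J, z⟩ ⟨h4, h5, h6, h7⟩
      rw [heq] at hg
      exact hg.1 _ h7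
    · intro g hg
      have h1 : ∀ P ∈ E1' σ f w x, g ∈ IP f P := by
        rintro P' hP'
        obtain ⟨⟨J, hJ, z, hz, hsp, rfl⟩, -⟩ := id hP'
        exact hg (J, z) ⟨hJ, hz, hsp, hP'⟩
      refine locN_of σ f hE hT hkey w x hw g h1 ?_
      rintro t ⟨ht, ht2⟩
      obtain ⟨⟨J, hJ, z, hz, hsp, rfl⟩, -⟩ := id hP
      refine h1 _ hP t.1 t.2 ht.1 fun k hk => σ.injective ?_
      rw [← on_of_mem σ f hP k hk]
      exact congrFun (congrArg Prod.snd ht2) k

/-! ### Planes in projective coordinates -/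

section

variable {K : Type} [Field K] {n : ℕ}

/-- `Y` lies on the plane through the point `X` in the directions of `J` -/
def OnP (J : Finset (Fin n)) (X Y : Fin n × Fin 2 → K) : Prop :=
  ∀ k, k ∉ J → ∃ a : K, ∀ b, Y (k, b) = a * X (k, b)

/-- the ideal of the part of `w² = G` over the plane through `X` in the directions of `J` -/
def IPlane (G : MvPolynomial (Fin n × Fin 2) K) (J : Finset (Fin n)) (X₀ : Fin n × Fin 2 → K) :
    Set (MvPolynomial (Option (Fin n × Fin 2)) K) :=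
  {g | ∃ (A B : MvPolynomial (Fin n × Fin 2) K) (Q : MvPolynomial (Option (Fin n × Fin 2)) K),
    g = rename some A + X none * rename some B + (X none ^ 2 - rename some G) * Q ∧
    ∀ Y, OnP J X₀ Y → eval Y A = 0 ∧ eval Y B = 0}

/-- vanishing on the part of a plane in a chart -/
theorem vanish_plane [Infinite K] (ε : Fin n → Fin 2) (J : Finset (Fin n)) (z : Fin n → K)
    {A : MvPolynomial (Fin n × Fin 2) K}
    (h : ∀ Y, OnP J (pt ε z) Y → (∀ j, Y (j, ε j) ≠ 0) → eval Y A = 0) :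
    ∀ Y, OnP J (pt ε z) Y → eval Y A = 0 := by
  classical
  obtain ⟨Λ, hΛ⟩ : ∃ Λ : Fin n × Fin 2 → MvPolynomial (Fin n × Fin 2) K,
      Λ = fun p => if p.1 ∈ J then X p else X (p.1, 0) * C (pt ε z p) := ⟨_, rfl⟩
  obtain ⟨Yv, hYv⟩ : ∃ Yv : (Fin n × Fin 2 → K) → Fin n × Fin 2 → K,
      Yv = fun v p => if p.1 ∈ J then v p else v (p.1, 0) * pt ε z p := ⟨_, rfl⟩
  have hev : ∀ v, eval v (aeval Λ A) = eval (Yv v) A := by
    intro v
    have e1 : ((eval v).comp (aeval Λ : MvPolynomial (Fin n × Fin 2) K →ₐ[K] _).toRingHom) =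
        eval (Yv v) := by
      apply MvPolynomial.ringHom_ext
      · intro r
        simp
      · intro p
        simp only [AlgHom.toRingHom_eq_coe, RingHom.coe_comp, RingHom.coe_coe, Function.comp_apply, aeval_X,
          eval_X, hΛ, hYv]
        split_ifs <;> simp
    exact congrArg (fun φ => φ A) e1
  have hon : ∀ v, OnP J (pt ε z) (Yv v) := by
    intro v k hk
    refine ⟨v (k, 0), fun b => ?_⟩
    rw [hYv]
    exact if_neg hk
  have hpoly : aeval Λ A * ∏ j, X (j, if j ∈ J then ε j else 0) = 0 := by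
    apply MvPolynomial.funext
    intro v
    rw [map_mul, map_prod, map_zero, hev]
    simp only [eval_X]
    by_cases hb : ∀ j, v (j, if j ∈ J then ε j else 0) ≠ 0
    · rw [h (Yv v) (hon v), zero_mul]
      intro j
      have h1 := hb j
      rw [hYv]
      by_cases hj : j ∈ J
      · simp only [hj, if_true] at h1 ⊢
        exact h1
      · simp only [hj, if_false] at h1 ⊢
        rw [pt_self, mul_one]
        exact h1
    · push Not at hb
      obtain ⟨j, hj⟩ := hb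
      rw [Finset.prod_eq_zero (Finset.mem_univ j) hj, mul_zero]
  have h0 : aeval Λ A = 0 :=
    (mul_eq_zero.1 hpoly).resolve_right (Finset.prod_ne_zero_iff.2 fun j _ => X_ne_zero _)
  intro Y hY
  choose! a ha using hY
  have h1 := hev fun p => if p.1 ∈ J then Y p else a p.1
  rw [h0, map_zero] at h1
  have h2 : Yv (fun p => if p.1 ∈ J then Y p else a p.1) = Y := by
    rw [hYv]
    funext p
    by_cases hp : p.1 ∈ J
    · simp only [hp, if_true]
    · simp only [hp, if_false]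
      exact (ha p.1 hp p.2).symm
  rw [h2] at h1
  exact h1.symm

/-- from the coefficients in a chart to the ideal of the part over a plane -/
theorem plane_of [Infinite K] (ε : Fin n → Fin 2) {G : MvPolynomial (Fin n × Fin 2) K} {f : MvPolynomial (Fin n) K}
    (hGf : ∀ z : Fin n → K, eval z f = eval (pt ε z) G)
    (hGs : ∀ (X : Fin n × Fin 2 → K) (a : Fin n → K), eval (fun p => a p.1 * X p) G =
      (∏ j, a j) ^ 4 * eval X G) (g : MvPolynomial (Option (Fin n × Fin 2)) K) (J : Finset (Fin n))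
    (z : Fin n → K) (h : ∀ k, coeff k (Ph ε g) ∈ IQ f {y | OnPl J z y}) :
    g ∈ IPlane G J (pt ε z) := by
  obtain ⟨A, B, Q, hg⟩ := div_rem G g
  have key : ∀ x : Fin n × Fin 2 → K, OnP J (pt ε z) x → (∀ j, x (j, ε j) ≠ 0) → eval x A = 0 ∧ eval x B = 0 := by
    intro x hxJ hx
    have hP : (∏ j, x (j, ε j)) ≠ 0 := Finset.prod_ne_zero_iff.2 fun j _ => hx j
    have hxe : (fun p : Fin n × Fin 2 => x (p.1, ε p.1) * pt ε (zc ε x) p) = x :=
      funext fun p => pt_zc ε x hx p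
    have hzx : OnPl J z (zc ε x) := by
      intro k hk
      obtain ⟨a, ha⟩ := hxJ k hk
      have h1 : x (k, ε k) = a := by rw [ha, pt_self, mul_one]
      have h2 : x (k, Fin.rev (ε k)) = a * z k := by rw [ha, pt_rev]
      unfold zc
      rw [h1, h2, mul_div_cancel_left₀]
      rw [← h1]
      exact hx k
    have h1 : (Polynomial.X ^ 2 - Polynomial.C (eval (zc ε x) f)) ∣
        Ev ε (fun j => x (j, ε j)) (zc ε x) g := by
      rw [ev_ph, eval_map, eval₂_eq]
      refine Finset.dvd_sum fun k _ => ?_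
      refine Dvd.dvd.mul_right ?_ _
      obtain ⟨A', B', Q', h2, h3⟩ := h k
      obtain ⟨hA', hB'⟩ := h3 (zc ε x) hzx
      have h4 : Th (zc ε x) (X none : MvPolynomial (Option (Fin n)) K) = Polynomial.X := by
        simp [Th]
      rw [h2, map_add, map_add, map_mul, map_mul, map_sub, map_pow, th_some, th_some, th_some, hA', hB',
        h4, map_zero, mul_zero, zero_add, zero_add]
      exact dvd_mul_right _ _
    have h4 : Ev ε (fun j => x (j, ε j)) (zc ε x) (X none) =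
        Polynomial.C ((∏ j, x (j, ε j)) ^ 2) * Polynomial.X := by
      simp [Ev]
    have h5 : eval x G = (∏ j, x (j, ε j)) ^ 4 * eval (zc ε x) f := by
      have := hGs (pt ε (zc ε x)) (fun j => x (j, ε j))
      rw [hxe, ← hGf] at this
      exact this
    have h6 : Ev ε (fun j => x (j, ε j)) (zc ε x) (X none ^ 2 - rename some G) =
        Polynomial.C ((∏ j, x (j, ε j)) ^ 4) * (Polynomial.X ^ 2 - Polynomial.C (eval (zc ε x) f)) := by
      rw [map_sub, map_pow, h4, ev_some, hxe, h5, map_mul Polynomial.C, map_pow Polynomial.C,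
        map_pow Polynomial.C]
      ring
    have h7 : Ev ε (fun j => x (j, ε j)) (zc ε x) g =
        (Polynomial.C ((∏ j, x (j, ε j)) ^ 2 * eval x B) * Polynomial.X + Polynomial.C (eval x A)) +
        (Polynomial.X ^ 2 - Polynomial.C (eval (zc ε x) f)) *
          (Polynomial.C ((∏ j, x (j, ε j)) ^ 4) * Ev ε (fun j => x (j, ε j)) (zc ε x) Q) := by
      rw [hg, map_add, map_add, map_mul, map_mul, h6, h4, ev_some, ev_some, hxe, map_mul Polynomial.C]
      ring
    rw [h7] at h1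
    have h8 := (dvd_add_left (dvd_mul_right _ _)).1 h1
    obtain ⟨h9, h10⟩ := zero_of_dvd h8
    exact ⟨h9, (mul_eq_zero.1 h10).resolve_left (pow_ne_zero 2 hP)⟩
  exact ⟨A, B, Q, hg, fun Y hY => ⟨vanish_plane ε J z (fun Y h1 h2 => (key Y h1 h2).1) Y hY,
    vanish_plane ε J z (fun Y h1 h2 => (key Y h1 h2).2) Y hY⟩⟩

/-- from the ideal of the part over a plane to the rational points in the chart -/
theorem ip_of_plane [Infinite K] (ε : Fin n → Fin 2) {G : MvPolynomial (Fin n × Fin 2) K} {f : MvPolynomial (Fin n) K}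
    (hGf : ∀ z : Fin n → K, eval z f = eval (pt ε z) G)
    (hGs : ∀ (X : Fin n × Fin 2 → K) (a : Fin n → K), eval (fun p => a p.1 * X p) G =
      (∏ j, a j) ^ 4 * eval X G) (g : MvPolynomial (Option (Fin n × Fin 2)) K) (J : Finset (Fin n))
    (z : Fin n → K) (h : g ∈ IPlane G J (pt ε z)) : ∀ k, coeff k (Ph ε g) ∈ IP f {y | OnPl J z y} := by
  intro k W y hW hy
  obtain ⟨A, B, Q, h1, h2⟩ := h
  refine (ph_iff ε g W y).1 (fun a => ?_) k
  have h3 : OnP J (pt ε z) fun p => a p.1 * pt ε y p := by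
    intro k hk
    refine ⟨a k, fun b => ?_⟩
    show a k * pt ε y (k, b) = a k * pt ε z (k, b)
    unfold pt
    rw [hy k hk]
  obtain ⟨hA, hB⟩ := h2 _ h3
  have hr : ∀ P : MvPolynomial (Fin n × Fin 2) K, eval (cd a W (pt ε y)) (rename some P) =
      eval (fun p => a p.1 * pt ε y p) P := by
    intro P
    rw [eval_rename]
    rfl
  rw [h1, map_add, map_add, map_mul, map_mul, map_sub, map_pow, eval_X, hr, hr, hr, hA, hB, hGs, ← hGf, ← hW]
  simp only [cd, Option.elim_none]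
  ring

end

/-- **The local closures off the branch divisor.** -/
theorem cls (h2 : S_CLA) (h3 : S_NSQ) (h4 : S_CHF) (h5 : S_INV) {K : Type} [Field K] [NumberField K] {n : ℕ}
    (F : MvPolynomial (Fin n × Fin 2) K) (hF : Hom4 F) (hS : SmoothF F) (e : K) (he : e ≠ 0)
    (hE : ∀ ε, (EE (C e * ch F ε)).Finite) (hT : ∀ ε, (TT0 (C e * ch F ε)).Finite)
    {L : Type} [NontriviallyNormedField L] [CompleteSpace L] (σ : K →+* L) (hσ : DenseRange σ)
    (w : L) (x : Fin n × Fin 2 → L) (hw : w ≠ 0) (hs : w ^ 2 = eval₂ σ x (C e * F)) :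
    locF σ (C e * F) w x = Set.univ ∨
    (∃ (ε : Fin n → Fin 2) (z : Fin n → K) (W : K), (∀ i, TorN (ch F ε) z i) ∧
      W ^ 2 = eval (pt ε z) (C e * F) ∧
      (∃ a : Fin n → L, (∀ j, a j ≠ 0) ∧ w = (∏ j, a j) ^ 2 * σ W ∧ x = fun p => a p.1 * σ (pt ε z p)) ∧
      locF σ (C e * F) w x =
        {g | ∀ a : Fin n → K, eval (fun o => o.elim ((∏ j, a j) ^ 2 * W) fun p => a p.1 * pt ε z p) g = 0}) ∨
    ∃ E' : Set (Finset (Fin n) × (Fin n × Fin 2 → K)), E'.Nonempty ∧
      (∀ q ∈ E', q.1.Nonempty ∧ eval q.2 F ≠ 0 ∧ SpecF F q.2 q.1 ∧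
        ∀ k, k ∉ q.1 → ∃ a : L, a ≠ 0 ∧ ∀ b, x (k, b) = a * σ (q.2 (k, b))) ∧
      locF σ (C e * F) w x = ⋂ q ∈ E', IPlane (C e * F) q.1 q.2 := by
  classical
  have hKinf : Infinite K := CharZero.infinite K
  have hcl : CharZero L := charZero_of_injective_ringHom σ.injective
  have hσe : σ e ≠ 0 := (_root_.map_ne_zero σ).2 he
  -- scaling
  have sK : ∀ (X : Fin n × Fin 2 → K) (a : Fin n → K), eval (fun p => a p.1 * X p) F =
      (∏ j, a j) ^ 4 * eval X F := (h4 K n F hF (fun _ => 0)).2.2.2.2.2.1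
  have sKe : ∀ (X : Fin n × Fin 2 → K) (a : Fin n → K), eval (fun p => a p.1 * X p) (C e * F) =
      (∏ j, a j) ^ 4 * eval X (C e * F) := by
    intro X a
    rw [map_mul, map_mul, eval_C, eval_C, sK]
    ring
  have hFL : Hom4 (MvPolynomial.map σ F) := fun m hm => hF m (support_map_subset σ F hm)
  have sL : ∀ (x : Fin n × Fin 2 → L) (a : Fin n → L), eval₂ σ (fun p => a p.1 * x p) F =
      (∏ j, a j) ^ 4 * eval₂ σ x F := by
    intro x a
    have := (h4 L n (MvPolynomial.map σ F) hFL (fun _ => 0)).2.2.2.2.2.1 x a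
    rwa [eval_map, eval_map] at this
  -- the charts
  have cK : ∀ (ε : Fin n → Fin 2) (z : Fin n → K), eval z (ch F ε) = eval (pt ε z) F :=
    fun ε => (h4 K n F hF ε).2.2.1
  have cKe : ∀ (ε : Fin n → Fin 2) (z : Fin n → K), eval z (C e * ch F ε) = eval (pt ε z) (C e * F) := by
    intro ε z
    rw [map_mul, map_mul, eval_C, eval_C, cK]
  have eLe : ∀ x : Fin n × Fin 2 → L, eval₂ σ x (C e * F) = σ e * eval₂ σ x F := by
    intro x
    rw [eval₂_mul, eval₂_C]
  have hFx : eval₂ σ x F ≠ 0 := by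
    intro h0
    rw [eLe, h0, mul_zero] at hs
    exact hw (pow_eq_zero_iff two_ne_zero |>.1 hs)
  choose ε hε using pair_ne (fun x => eval₂ σ x F) sL hFx
  have hP : (∏ j, x (j, ε j)) ≠ 0 := Finset.prod_ne_zero_iff.2 fun j _ => hε j
  have hxe : (fun p : Fin n × Fin 2 => x (p.1, ε p.1) * pt ε (zc ε x) p) = x :=
    funext fun p => pt_zc ε x hε p
  obtain ⟨c1, c2, -, c4, -, -, c7⟩ := h4 K n F hF ε
  obtain ⟨i1, i2, -, i4⟩ := h5 K n (ch F ε) c1 e he
  rcases affcls h2 h3 (C e * ch F ε) i1 (i2 (c2 hS)) (hE ε) (hT ε) σ hσ (w / (∏ j, x (j, ε j)) ^ 2)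
    (zc ε x) (div_ne_zero hw (pow_ne_zero 2 hP)) with hA | ⟨t, ht, ht2, hA⟩ | ⟨E', hE1, hE2, hE3, hE4⟩
  · left
    rw [Set.eq_univ_iff_forall]
    intro g
    rw [locF_iff σ (cKe ε) sKe w x hε g, hA]
    exact fun k => Set.mem_univ _
  · right
    left
    have h6 : σ t.1 = w / (∏ j, x (j, ε j)) ^ 2 := congrArg Prod.fst ht2
    have h7 : (fun i => σ (t.2 i)) = zc ε x := congrArg Prod.snd ht2
    refine ⟨ε, t.2, t.1, fun i => ((i4 t.2).1 i).1 (ht.2 i), ?_, ⟨fun j => x (j, ε j), hε, ?_, ?_⟩, ?_⟩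
    · rw [← cKe]
      exact ht.1
    · rw [h6, mul_div_cancel₀ _ (pow_ne_zero 2 hP)]
    · funext p
      have h8 := congrFun hxe p
      rw [pt_map, h7]
      exact h8.symm
    · ext g
      rw [locF_iff σ (cKe ε) sKe w x hε g, hA]
      exact (ph_iff ε g t.1 t.2).symm
  · right
    right
    refine ⟨(fun q => (q.1, pt ε q.2)) '' E', hE1.image _, ?_, ?_⟩
    · rintro _ ⟨q, hq, rfl⟩
      obtain ⟨q1, q2, q3, q4⟩ := hE2 q hq
      refine ⟨q1, ?_, ?_, ?_⟩
      · rw [← cK ε q.2]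
        intro h0
        apply q2
        rw [map_mul, h0, mul_zero]
      · exact (c4 q.2 q.1).1 (((i4 q.2).2 q.1).1 q3)
      · intro k hk
        refine ⟨x (k, ε k), hε k, fun b => ?_⟩
        have h6 := congrFun hxe (k, b)
        rw [← h6, pt_map]
        change x (k, ε k) * pt ε (zc ε x) (k, b) = x (k, ε k) * pt ε (fun j => σ (q.2 j)) (k, b)
        unfold pt
        rw [q4 k hk]
    · ext g
      rw [Set.mem_iInter₂]
      constructor
      · rintro hg _ ⟨q, hq, rfl⟩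
        rw [locF_iff σ (cKe ε) sKe w x hε g] at hg
        exact plane_of ε (cKe ε) sKe g q.1 q.2 fun k => hE3 _ (hg k) q hq
      · intro hg
        rw [locF_iff σ (cKe ε) sKe w x hε g]
        intro k
        refine hE4 _ fun q hq => ?_
        exact ip_of_plane ε (cKe ε) sKe g q.1 q.2 (hg (q.1, pt ε q.2) ⟨q, hq, rfl⟩) k

end Pool.Agent.H58U
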