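import Pool.Agent.Q222.TT.Opn
import Pool.Agent.Q35.TB.All

/-!
# Open closures, uniformly in the twists and the extensions of bounded degree (helper58)
-/

set_option autoImplicit false
set_option linter.unusedSectionVars false

open MvPolynomial Pool.Agent.Y720.MZ

namespace Pool.Agent.H58U

open Pool.Agent.Q35.TT Pool.Agent.Q35.TB Pool.Agent.Results.MP_ed3816_nt.OpenAwayFromTorsion
open Pool.Agent.Q222.TT.Opn

section transport

variable {K F : Type} [Field K] [CharZero K] [Field F] [CharZero F] (φ : K →+* F)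

theorem genus_map_iff {q : Polynomial K} : GenusOne (q.map φ) ↔ GenusOne q := by
  have e : jacobian (q.map φ) ((q.map φ).coeff 0) = (jacobian q (q.coeff 0)).map φ := by
    simp only [jacobian, WeierstrassCurve.map, Polynomial.coeff_map, map_zero, map_sub, map_add, map_mul,
      map_pow, map_ofNat]
  rw [GenusOne, e, WeierstrassCurve.map_Δ, GenusOne]
  exact map_ne_zero φ

/-- the condition over an extension implies the condition over the ground field -/
theorem special_desc {g : MvPolynomial (Fin 2) K} {x : Fin 2 → K} {i j : Fin 2}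
    (h : NotSpecial (map φ g) (fun j => φ (x j)) i j) : NotSpecial g x i j := by
  have hinf : Infinite K := CharZero.infinite K
  obtain ⟨h1, u, h2⟩ := h
  refine ⟨?_, ?_⟩
  · rw [pderiv_map, line_map, line_map, Polynomial.map_dvd_map'] at h1
    exact h1
  · obtain ⟨r, hr⟩ : ∃ r : Polynomial K, r = rst (TqP g (Pi.single j 1)) x (Pi.single i 1) := ⟨_, rfl⟩
    have hrK : ∀ t : K, r.eval t = Tq g (Pi.single j 1) (fun a => x a + t * (Pi.single i 1 : Fin 2 → K) a) := by
      intro t
      rw [hr, rst_eval, TqP_eval]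
      rfl
    have hrF : ∀ t : F, (r.map φ).eval t =
        Tq (map φ g) (Pi.single j 1) (fun a => φ (x a) + t * (Pi.single i 1 : Fin 2 → F) a) := by
      intro t
      rw [hr, rst_map, TqP_map, Pool.Agent.Q222.TT.Opn.single_map, Pool.Agent.Q222.TT.Opn.single_map, rst_eval, TqP_eval]
      rfl
    have hr0 : r ≠ 0 := by
      intro h0
      apply genusOne_iff.1 h2
      rw [← hrF, h0, Polynomial.map_zero, Polynomial.eval_zero]
    obtain ⟨t, ht⟩ : ∃ t : K, r.eval t ≠ 0 := by
      by_contra hno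
      push Not at hno
      exact hr0 (Polynomial.funext fun t => by rw [hno t, Polynomial.eval_zero])
    refine ⟨t, genusOne_iff.2 ?_⟩
    rw [← hrK]
    exact ht

theorem moves_ext {g : MvPolynomial (Fin 2) K} {z : Fin 2 → K} {w : K} {i : Fin 2} (hon : OnCover g (z, w))
    (h : Moves g (z, w) i) : Moves (map φ g) (image φ (z, w)) i := by
  refine ⟨?_, ?_⟩
  · change GenusOne (line (map φ g) (fun j => φ (z j)) i)
    rw [line_map]
    exact genus_map φ h.1
  · have h2 := io_map φ (io_of hon h)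
    rw [← th_map, Pool.Agent.Q222.TT.Opn.single_map] at h2
    exact h2.2

end transport

/-- a direction which moves and serves the other direction -/
theorem open_of {K : Type} [Field K] [CharZero K] {g : MvPolynomial (Fin 2) K} (hg : ∀ j, g.degreeOf j ≤ 4)
    {z : Fin 2 → K} {w : K} (hw : w ≠ 0) (hon : OnCover g (z, w)) {i : Fin 2} (hG : GenusOne (line g z i))
    (hM : ∀ (F : Type) [Field F] [CharZero F] (φ : K →+* F), Moves (map φ g) (image φ (z, w)) i)
    (hS : ∀ j, i ≠ j → NotSpecial g z i j) (ι : Type) [Finite ι] [Nonempty ι] (p : ι → ℕ)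
    [∀ v, Fact (p v).Prime] (hinj : Function.Injective p) (σ : ∀ v, K →+* ℚ_[p v]) :
    OpenAt g σ (fun v => image (σ v) (z, w)) ∧ ∀ τ : K →+* ℝ,
      OpenAtReal g σ τ (image τ (z, w), fun v => image (σ v) (z, w)) := by
  have hS' : ∀ (F : Type) [Field F] [CharZero F] (φ : K →+* F) (j : Fin 2),
      Serves (map φ g) (image φ (z, w)).1 i j := by
    intro F _ _ φ j
    by_cases hij : i = j
    · exact Or.inl hij
    · exact Or.inr (special_map φ (hS j hij))
  refine ⟨?_, fun τ => ?_⟩
  · refine ((Pool.Agent.Results.MP_ed3816_nt.OpenAwayFromTorsion.result).1 K 2 g hg ι p hinj σ).1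
      (fun v => image (σ v) (z, w)) (subset_closure ⟨(z, w), hon, rfl⟩) (fun v => ?_) fun j => ⟨i, fun v => ?_⟩
    · exact (map_ne_zero (σ v)).2 hw
    · exact ⟨hM _ (σ v), hS' _ (σ v) j⟩
  · refine ((Pool.Agent.Results.MP_ed3816_nt.OpenAwayFromTorsion.result).1 K 2 g hg ι p hinj σ).2 τ
      (image τ (z, w), fun v => image (σ v) (z, w)) (subset_closure ⟨(z, w), hon, rfl⟩) ?_ (fun v => ?_)
      fun j => ⟨i, ⟨?_, hS' _ τ j⟩, fun v => ?_⟩
    · exact (map_ne_zero τ).2 hw
    · exact (map_ne_zero (σ v)).2 hw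
    · change GenusOne (line (map τ g) (fun j => τ (z j)) i)
      rw [line_map]
      exact genus_map τ hG
    · exact ⟨hM _ (σ v), hS' _ (σ v) j⟩

/-- **Open closures for all twists over all extensions of bounded degree.** -/
theorem opnU (K : Type) [Field K] [NumberField K] (f : MvPolynomial (Fin 2) K) (hf : ∀ j, f.degreeOf j ≤ 4)
    (hs : SmoothN f) (D : ℕ) :
    ∃ (T : Set (Fin 2 → AlgebraicClosure K)) (E : Fin 2 → Set (AlgebraicClosure K)), T.Finite ∧
      (∀ j, (E j).Finite) ∧
      ∀ (L : Type) [Field L] [NumberField L] [Algebra K L], Module.finrank K L ≤ D → ∀ e : L, e ≠ 0 →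
      ∀ (z : Fin 2 → L) (w : L), w ≠ 0 → OnCover (C e * ex L f) (z, w) →
      ∀ φ : L →ₐ[K] AlgebraicClosure K, (fun j => φ (z j)) ∉ T →
      (∀ j, φ (z j) ∈ E j → Moves (C e * ex L f) (z, w) j) →
      ∀ (ι : Type) [Finite ι] [Nonempty ι] (p : ι → ℕ) [∀ v, Fact (p v).Prime], Function.Injective p →
      ∀ σ : ∀ v, L →+* ℚ_[p v],
        OpenAt (C e * ex L f) σ (fun v => image (σ v) (z, w)) ∧ ∀ τ : L →+* ℝ,
          OpenAtReal (C e * ex L f) σ τ (image τ (z, w), fun v => image (σ v) (z, w)) := by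
  classical
  have h3 : S_SPE := Pool.Agent.Q149.TT.spe
  have hreg := (Pool.Agent.Results.MP_ed3816_nt.OpenAwayFromTorsion.result).2 K f hf (ex_genus h3 hf hs)
    (not_prod h3 hf hs) (AlgebraicClosure K) (algebraMap K (AlgebraicClosure K))
  obtain ⟨T, hT, hT2⟩ := taf2 K 2 f hf hs D
  obtain ⟨E, hE⟩ : ∃ E : Fin 2 → Set (AlgebraicClosure K), E = fun j => {c | ∃ i, i ≠ j ∧
      ∃ x : Fin 2 → AlgebraicClosure K, x j = c ∧
      ¬ (GenusOne (line (map (algebraMap K (AlgebraicClosure K)) f) x i) ∧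
        NotSpecial (map (algebraMap K (AlgebraicClosure K)) f) x i j)} := ⟨_, rfl⟩
  have hEf : ∀ j, (E j).Finite := by
    intro j
    have h4 : (⋃ i ∈ {i : Fin 2 | i ≠ j}, {c | ∃ x : Fin 2 → AlgebraicClosure K, x j = c ∧
        ¬ (GenusOne (line (map (algebraMap K (AlgebraicClosure K)) f) x i) ∧
          NotSpecial (map (algebraMap K (AlgebraicClosure K)) f) x i j)}).Finite :=
      (Set.toFinite _).biUnion fun i hi => hreg i j hi
    refine h4.subset ?_
    rw [hE]
    rintro c ⟨i, hi, x, hx, hn⟩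
    exact Set.mem_iUnion₂.2 ⟨i, hi, x, hx, hn⟩
  refine ⟨T ∪ {t | ∀ j, t j ∈ E j}, E, hT.union (Set.Finite.pi' hEf), hEf, ?_⟩
  intro L _ _ _ hD e he z w hw hon φ hz hMv ι _ _ p _ hinj σ
  rw [Set.mem_union, not_or] at hz
  obtain ⟨hz1, hz2⟩ := hz
  have hfL : ∀ j, (ex L f).degreeOf j ≤ 4 := fun j => degreeOf_map_le _ (hf j)
  have hg : ∀ j, (C e * ex L f).degreeOf j ≤ 4 := fun j => (degreeOf_C_mul_le _ j e).trans (hfL j)
  have hmap : map (φ : L →+* AlgebraicClosure K) (ex L f) = map (algebraMap K (AlgebraicClosure K)) f := by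
    show map _ (map _ f) = _
    rw [MvPolynomial.map_map]
    exact congrArg (fun ψ => map ψ f) φ.comp_algebraMap
  -- the lines which are not exceptional
  have hGN : ∀ i j, i ≠ j → φ (z j) ∉ E j → GenusOne (line (ex L f) z i) ∧ NotSpecial (ex L f) z i j := by
    intro i j hij hj
    have h5 : GenusOne (line (map (algebraMap K (AlgebraicClosure K)) f) (fun a => φ (z a)) i) ∧
        NotSpecial (map (algebraMap K (AlgebraicClosure K)) f) (fun a => φ (z a)) i j := by
      by_contra hcon
      apply hj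
      rw [hE]
      exact ⟨i, hij, fun a => φ (z a), rfl, hcon⟩
    rw [← hmap] at h5
    refine ⟨?_, special_desc (φ : L →+* AlgebraicClosure K) h5.2⟩
    have h6 := h5.1
    have h7 : line (map (φ : L →+* AlgebraicClosure K) (ex L f)) (fun a => φ (z a)) i =
        (line (ex L f) z i).map (φ : L →+* AlgebraicClosure K) := line_map (φ : L →+* AlgebraicClosure K) _ z i
    rw [h7] at h6
    exact (genus_map_iff (φ : L →+* AlgebraicClosure K)).1 h6
  -- the direction
  have hex : ∃ i, GenusOne (line (C e * ex L f) z i) ∧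
      (∀ (F : Type) [Field F] [CharZero F] (ψ : L →+* F), Moves (map ψ (C e * ex L f)) (image ψ (z, w)) i) ∧
      ∀ j, i ≠ j → NotSpecial (C e * ex L f) z i j := by
    by_cases hall : ∀ j, φ (z j) ∉ E j
    · have hT3 : ∃ i, ¬ TorN (ex L f) z i := by
        by_contra hno
        push Not at hno
        exact hz1 (hT2 L hD z hno φ)
      obtain ⟨i, hi⟩ := hT3
      have hG : GenusOne (line (ex L f) z i) := by
        rcases (show i = 0 ∨ i = 1 by omega) with rfl | rfl
        · exact (hGN 0 1 (by decide) (hall 1)).1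
        · exact (hGN 1 0 (by decide) (hall 0)).1
      have hG' : GenusOne (line (C e * ex L f) z i) := by
        rw [line_twist]
        exact genus_twist he hG
      have hI : ∀ N : ℕ, N ≠ 0 → ¬ Tor (lc (C e * ex L f) (af z) i) (z i) w N := by
        intro N hN h5
        rw [Pool.Agent.Q190.TT.lc_smul _ e he, tws2 L _ e _ _ _ he] at h5
        exact hi ⟨N, hN, h5.2.2⟩
      exact ⟨i, hG', fun F _ _ ψ => moves_map ψ hg hw hon hG' hI,
        fun j hij => special_twist he (hGN i j hij (hall j)).2⟩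
    · push Not at hall
      obtain ⟨j₀, hj₀⟩ := hall
      have hMj := hMv j₀ hj₀
      refine ⟨j₀, hMj.1, fun F _ _ ψ => moves_ext ψ hon hMj, fun j hj => special_twist he (hGN j₀ j hj ?_).2⟩
      intro hjE
      apply hz2
      intro k
      have h01 : ∀ a b c : Fin 2, a ≠ b → c = a ∨ c = b := by decide
      rcases h01 j₀ j k hj with rfl | rfl
      · exact hj₀
      · exact hjE
  obtain ⟨i, hG, hM, hS⟩ := hex
  exact open_of hg hw hon hG hM hS ι p hinj σ

end Pool.Agent.H58U
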