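import Pool.Agent.H58U.Aff
import Pool.Agent.Q68.TT.Mzf

/-!
# Local closures of `w² = F`: from the charts to the projective varieties, with numbers (helper58)

The transfer is the one of `MZF` (`Pool.Agent.Q68.TT.Mzf`), for all points over the completion and with
bounds for the numbers.
-/

set_option autoImplicit false
set_option linter.unusedSectionVars false

open MvPolynomial Pool.Agent.Q35.TT Pool.Agent.Q224.TT Pool.Agent.Q68.TT.Mzf

namespace Pool.Agent.H58U

/-- polynomials divisible by `w² - G` vanish at all points -/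
theorem locF_of_dvd {K L : Type} [Field K] [NontriviallyNormedField L] {n : ℕ} (σ : K →+* L)
    {G : MvPolynomial (Fin n × Fin 2) K}
    (hGs : ∀ (X : Fin n × Fin 2 → K) (a : Fin n → K), eval (fun p => a p.1 * X p) G =
      (∏ j, a j) ^ 4 * eval X G) (w : L) (x : Fin n × Fin 2 → L)
    {g : MvPolynomial (Option (Fin n × Fin 2)) K} (h : (X none ^ 2 - rename some G) ∣ g) :
    g ∈ locF σ G w x := by
  obtain ⟨Q, rfl⟩ := h
  refine ⟨Set.univ, Filter.univ_mem, ?_⟩
  intro W X _ hW _ a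
  rw [map_mul, map_sub, map_pow, eval_X, eval_rename]
  have h1 : eval ((fun o : Option (Fin n × Fin 2) => o.elim ((∏ j, a j) ^ 2 * W) fun p => a p.1 * X p) ∘ some) G =
      (∏ j, a j) ^ 4 * eval X G := hGs X a
  rw [h1, ← hW]
  simp only [Option.elim_none]
  ring

section

variable {K : Type} [Field K] [NumberField K] {n : ℕ}

/-- The main theorem over one number field. -/
theorem proj (h2 : S_CLA) (h3 : S_NSQ) (h4 : S_CHF) (h5 : S_INV) (F : MvPolynomial (Fin n × Fin 2) K) (hF : Hom4 F)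
    (hS : SmoothF F) (e : K) (he : e ≠ 0) (N1 N2 : (Fin n → Fin 2) → ℕ)
    (hE : ∀ ε, (EE (C e * ch F ε)).encard ≤ N1 ε) (hT : ∀ ε, (TT0 (C e * ch F ε)).encard ≤ N2 ε)
    {L : Type} [NontriviallyNormedField L] [CompleteSpace L] (σ : K →+* L) (hσ : DenseRange σ) :
    -- (a) off the branch divisor, the special planes and the torsion points
    (∀ (w : L) (x : Fin n × Fin 2 → L), w ≠ 0 → w ^ 2 = eval₂ σ x (C e * F) →
      (∀ J : Finset (Fin n), J.Nonempty → J ≠ Finset.univ → ∀ X : Fin n × Fin 2 → K, eval X F ≠ 0 →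
        SpecF F X J → ¬ ∀ k, k ∉ J → ∃ a : L, a ≠ 0 ∧ ∀ b, x (k, b) = a * σ (X (k, b))) →
      (∀ (ε : Fin n → Fin 2) (z : Fin n → K), (∀ i, TorN (ch F ε) z i) → ∀ a : Fin n → L,
        x ≠ fun p => a p.1 * σ (pt ε z p)) →
      locF σ (C e * F) w x = Set.univ ∨
        locF σ (C e * F) w x = {g | (X none ^ 2 - rename some (C e * F)) ∣ g}) ∧
    -- (b) the number of the local closures off the branch divisor
    {J | ∃ (w : L) (x : Fin n × Fin 2 → L), w ≠ 0 ∧ w ^ 2 = eval₂ σ x (C e * F) ∧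
        J = locF σ (C e * F) w x}.encard ≤ ((∑ ε, 2 ^ N1 ε * 2 ^ N2 ε : ℕ) : ℕ∞) ∧
    -- (c) the number of all local closures
    ∀ b : ℕ, {J | ∃ x : Fin n × Fin 2 → L, (∀ j, ∃ b, x (j, b) ≠ 0) ∧ eval₂ σ x F = 0 ∧
          J = locB σ F x}.encard ≤ b →
      {J | ∃ (w : L) (x : Fin n × Fin 2 → L), (∀ j, ∃ b, x (j, b) ≠ 0) ∧ w ^ 2 = eval₂ σ x (C e * F) ∧
        J = locF σ (C e * F) w x}.encard ≤ (((∑ ε, 2 ^ N1 ε * 2 ^ N2 ε) * (b + 1) : ℕ) : ℕ∞) := by
  classical
  have hcl : CharZero L := charZero_of_injective_ringHom σ.injective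
  have hσe : σ e ≠ 0 := (_root_.map_ne_zero σ).2 he
  -- scaling
  have sK : ∀ (X : Fin n × Fin 2 → K) (a : Fin n → K), eval (fun p => a p.1 * X p) F =
      (∏ j, a j) ^ 4 * eval X F := (h4 K n F hF (fun _ => 0)).2.2.2.2.2.1
  have sKe : ∀ (X : Fin n × Fin 2 → K) (a : Fin n → K), eval (fun p => a p.1 * X p) (C e * F) =
      (∏ j, a j) ^ 4 * eval X (C e * F) := by
    intro X a
    rw [map_mul, map_mul, eval_C, eval_C, sK]
    ring
  have hFL : Hom4 (MvPolynomial.map σ F) := fun m hm => hF m (support_map_subset σ F hm)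
  have sL : ∀ (x : Fin n × Fin 2 → L) (a : Fin n → L), eval₂ σ (fun p => a p.1 * x p) F =
      (∏ j, a j) ^ 4 * eval₂ σ x F := by
    intro x a
    have := (h4 L n (MvPolynomial.map σ F) hFL (fun _ => 0)).2.2.2.2.2.1 x a
    rwa [eval_map, eval_map] at this
  -- the charts
  have cK : ∀ (ε : Fin n → Fin 2) (z : Fin n → K), eval z (ch F ε) = eval (pt ε z) F :=
    fun ε => (h4 K n F hF ε).2.2.1
  have cKe : ∀ (ε : Fin n → Fin 2) (z : Fin n → K), eval z (C e * ch F ε) = eval (pt ε z) (C e * F) := by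
    intro ε z
    rw [map_mul, map_mul, eval_C, eval_C, cK]
  have cLe : ∀ (ε : Fin n → Fin 2) (z : Fin n → L), eval₂ σ z (C e * ch F ε) =
      σ e * eval₂ σ (pt ε z) F := by
    intro ε z
    rw [eval₂_mul, eval₂_C, eval₂_ch]
  have eLe : ∀ x : Fin n × Fin 2 → L, eval₂ σ x (C e * F) = σ e * eval₂ σ x F := by
    intro x
    rw [eval₂_mul, eval₂_C]
  have AF := fun ε : Fin n → Fin 2 => aff h2 h3 (C e * ch F ε)
    (h5 K n (ch F ε) (h4 K n F hF ε).1 e he).1
    ((h5 K n (ch F ε) (h4 K n F hF ε).1 e he).2.1 ((h4 K n F hF ε).2.1 hS)) (N1 ε) (N2 ε) (hE ε) (hT ε) σ hσ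
  -- from a chart to the projective variety
  have tr : ∀ (ε : Fin n → Fin 2) (Q : L → Prop) (B : ℕ), (∀ w a : L, a ≠ 0 → Q w → Q (w / a)) →
      {J | ∃ (w : L) (x : Fin n → L), Q w ∧ w ^ 2 = eval₂ σ x (C e * ch F ε) ∧
        J = locN σ (C e * ch F ε) w x}.encard ≤ B →
      {J | ∃ (w : L) (x : Fin n × Fin 2 → L), Q w ∧ (∀ j, x (j, ε j) ≠ 0) ∧
        w ^ 2 = eval₂ σ x (C e * F) ∧ J = locF σ (C e * F) w x}.encard ≤ B := by
    intro ε Q B hQ hfin
    refine le_trans (Set.encard_le_encard ?_)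
      ((Set.encard_image_le (fun J => {g | ∀ k, coeff k (Ph ε g) ∈ J}) _).trans hfin)
    rintro J ⟨w, x, hw, hx, hs, rfl⟩
    have hP : (∏ j, x (j, ε j)) ≠ 0 := Finset.prod_ne_zero_iff.2 fun j _ => hx j
    refine ⟨locN σ (C e * ch F ε) (w / (∏ j, x (j, ε j)) ^ 2) (zc ε x), ⟨_, _, ?_, ?_, rfl⟩,
      Set.ext fun g => (locF_iff σ (cKe ε) sKe w x hx g).symm⟩
    · exact hQ _ _ (pow_ne_zero 2 hP) hw
    · have h5 := sL (pt ε (zc ε x)) (fun j => x (j, ε j))
      have hxe : (fun p : Fin n × Fin 2 => x (p.1, ε p.1) * pt ε (zc ε x) p) = x :=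
        funext fun p => pt_zc ε x hx p
      rw [hxe] at h5
      rw [div_pow, hs, eLe, cLe, h5, ← pow_mul, mul_left_comm]
      exact mul_div_cancel_left₀ _ (pow_ne_zero _ hP)
  refine ⟨?_, ?_, ?_⟩
  · intro w x hw hs hsp ht
    have hFx : eval₂ σ x F ≠ 0 := by
      intro h0
      rw [eLe, h0, mul_zero] at hs
      exact hw (pow_eq_zero_iff two_ne_zero |>.1 hs)
    choose ε hε using pair_ne (fun x => eval₂ σ x F) sL hFx
    have hP : (∏ j, x (j, ε j)) ≠ 0 := Finset.prod_ne_zero_iff.2 fun j _ => hε j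
    have hxe : (fun p : Fin n × Fin 2 => x (p.1, ε p.1) * pt ε (zc ε x) p) = x :=
      funext fun p => pt_zc ε x hε p
    obtain ⟨c1, c2, -, c4, -, -, c7⟩ := h4 K n F hF ε
    obtain ⟨-, -, -, i4⟩ := h5 K n (ch F ε) c1 e he
    have hA := (AF ε).1 (w / (∏ j, x (j, ε j)) ^ 2) (zc ε x) (div_ne_zero hw (pow_ne_zero 2 hP)) ?_ ?_
    · rcases hA with hA | hA
      · left
        rw [Set.eq_univ_iff_forall]
        intro g
        rw [locF_iff σ (cKe ε) sKe w x hε g, hA]
        exact fun k => Set.mem_univ _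
      · right
        ext g
        constructor
        · intro hg
          rw [locF_iff σ (cKe ε) sKe w x hε g, hA] at hg
          exact dvd_of ε (cKe ε) sKe g hg
        · exact fun hg => locF_of_dvd σ sKe w x hg
    · intro J hJ hJu z hz hspec hk
      refine hsp J hJ hJu (pt ε z) ?_ ?_ ?_
      · rw [← cK ε z]
        intro h0
        apply hz
        rw [map_mul, h0, mul_zero]
      · exact (c4 z J).1 (((i4 z).2 J).1 hspec)
      · intro k hkJ
        refine ⟨x (k, ε k), hε k, fun b => ?_⟩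
        have h6 := congrFun hxe (k, b)
        rw [← h6, pt_map]
        change x (k, ε k) * pt ε (zc ε x) (k, b) = x (k, ε k) * pt ε (fun j => σ (z j)) (k, b)
        unfold pt
        rw [hk k hkJ]
    · rintro t ⟨-, htor⟩ hx
      refine ht ε t.2 (fun i => ((i4 t.2).1 i).1 (htor i)) (fun j => x (j, ε j)) ?_
      funext p
      have h6 := congrFun hxe p
      rw [← h6, pt_map, hx]
  · have hcov : {J | ∃ (w : L) (x : Fin n × Fin 2 → L), w ≠ 0 ∧ w ^ 2 = eval₂ σ x (C e * F) ∧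
        J = locF σ (C e * F) w x} ⊆ ⋃ ε : Fin n → Fin 2, {J | ∃ (w : L) (x : Fin n × Fin 2 → L), w ≠ 0 ∧
          (∀ j, x (j, ε j) ≠ 0) ∧ w ^ 2 = eval₂ σ x (C e * F) ∧ J = locF σ (C e * F) w x} := by
      rintro J ⟨w, x, hw, hs, rfl⟩
      have hFx : eval₂ σ x F ≠ 0 := by
        intro h0
        rw [eLe, h0, mul_zero] at hs
        exact hw (pow_eq_zero_iff two_ne_zero |>.1 hs)
      choose ε hε using pair_ne (fun x => eval₂ σ x F) sL hFx
      rw [Set.mem_iUnion]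
      exact ⟨ε, w, x, hw, hε, hs, rfl⟩
    refine (Set.encard_le_encard hcov).trans ((Set.encard_iUnion_le_of_fintype _).trans ?_)
    rw [Nat.cast_sum]
    refine Finset.sum_le_sum fun ε _ => ?_
    exact tr ε (fun w => w ≠ 0) (2 ^ N1 ε * 2 ^ N2 ε) (fun w a ha hw => div_ne_zero hw ha) (AF ε).2.1
  · intro b hB
    have hz : ∀ (ε : Fin n → Fin 2) (z : Fin n → K), eval z (C e * ch F ε) = 0 ↔
        eval (pt ε z) F = 0 := by
      intro ε z
      rw [map_mul, eval_C, cK, mul_eq_zero, or_iff_right he]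
    have hfin : ∀ ε : Fin n → Fin 2, {J : Set (MvPolynomial (Fin n) K) | ∃ x : Fin n → L,
        eval₂ σ x (C e * ch F ε) = 0 ∧ J = JB σ (C e * ch F ε) x}.encard ≤ b := by
      intro ε
      choose N H hH using homog (K := K) ε
      refine le_trans (Set.encard_le_encard ?_) ((Set.encard_image_le (fun J => {g | H g ∈ J}) _).trans hB)
      rintro J ⟨x, hx, rfl⟩
      refine ⟨locB σ F (pt ε x), ⟨pt ε x, fun j => ⟨ε j, by rw [pt_self]; exact one_ne_zero⟩, ?_, rfl⟩, ?_⟩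
      · rw [cLe] at hx
        exact (mul_eq_zero.1 hx).resolve_left hσe
      · ext g
        exact (locB_iff σ (hz ε) sK x g (hH g)).symm
    have hcov : {J | ∃ (w : L) (x : Fin n × Fin 2 → L), (∀ j, ∃ b, x (j, b) ≠ 0) ∧
        w ^ 2 = eval₂ σ x (C e * F) ∧ J = locF σ (C e * F) w x} ⊆
        ⋃ ε : Fin n → Fin 2, {J | ∃ (w : L) (x : Fin n × Fin 2 → L), True ∧
          (∀ j, x (j, ε j) ≠ 0) ∧ w ^ 2 = eval₂ σ x (C e * F) ∧ J = locF σ (C e * F) w x} := by
      rintro J ⟨w, x, hx, hs, rfl⟩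
      choose ε hε using hx
      rw [Set.mem_iUnion]
      exact ⟨ε, w, x, trivial, hε, hs, rfl⟩
    refine (Set.encard_le_encard hcov).trans ((Set.encard_iUnion_le_of_fintype _).trans ?_)
    rw [Finset.sum_mul, Nat.cast_sum]
    refine Finset.sum_le_sum fun ε _ => ?_
    refine tr ε (fun _ => True) (2 ^ N1 ε * 2 ^ N2 ε * (b + 1)) (fun w a ha hw => trivial) ?_
    refine le_trans (Set.encard_le_encard ?_) ((AF ε).2.2 b (hfin ε))
    rintro J ⟨w, x, -, hs, hJ⟩
    exact ⟨w, x, hs, hJ⟩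

end

end Pool.Agent.H58U
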